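import Mathlib

set_option autoImplicit false

open Polynomial Finset

namespace Pool.Agent.helper98.Gap

/-! ### l1 seminorms of polynomials and determinants -/

/-- absolute value on the integers as a ring seminorm -/
noncomputable def absZ : RingSeminorm ℤ where
  toFun n := |(n : ℝ)|
  map_zero' := by simp
  add_le' a b := by push_cast; exact abs_add_le _ _
  neg' a := by simp
  mul_le' a b := by push_cast; rw [abs_mul]

section l1
variable {R : Type*} [CommRing R] (ν : RingSeminorm R)

/-- the raw l1 size -/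
noncomputable def l1raw (p : R[X]) : ℝ := ∑ i ∈ p.support, ν (p.coeff i)

lemma l1raw_eq_of_subset (p : R[X]) (s : Finset ℕ) (hs : p.support ⊆ s) :
    l1raw ν p = ∑ i ∈ s, ν (p.coeff i) := by
  unfold l1raw
  apply Finset.sum_subset hs
  intro x _ hx
  rw [Polynomial.notMem_support_iff.1 hx]
  exact map_zero ν

lemma l1raw_add (p q : R[X]) : l1raw ν (p + q) ≤ l1raw ν p + l1raw ν q := by
  rw [l1raw_eq_of_subset ν (p + q) (p.support ∪ q.support) Polynomial.support_add,
    l1raw_eq_of_subset ν p (p.support ∪ q.support) Finset.subset_union_left,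
    l1raw_eq_of_subset ν q (p.support ∪ q.support) Finset.subset_union_right,
    ← Finset.sum_add_distrib]
  apply Finset.sum_le_sum
  intro i _
  rw [Polynomial.coeff_add]
  exact map_add_le_add ν _ _

lemma l1raw_zero : l1raw ν 0 = 0 := by simp [l1raw]

lemma l1raw_nonneg (p : R[X]) : 0 ≤ l1raw ν p :=
  Finset.sum_nonneg fun i _ => apply_nonneg ν _

lemma l1raw_sum {ι : Type*} (s : Finset ι) (f : ι → R[X]) :
    l1raw ν (∑ i ∈ s, f i) ≤ ∑ i ∈ s, l1raw ν (f i) := by
  classical
  induction s using Finset.induction_on with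
  | empty => simp [l1raw_zero]
  | insert a s ha ih =>
    rw [Finset.sum_insert ha, Finset.sum_insert ha]
    exact (l1raw_add ν _ _).trans (by linarith)

lemma l1raw_monomial (k : ℕ) (a : R) : l1raw ν (Polynomial.monomial k a) = ν a := by
  rw [l1raw_eq_of_subset ν _ {k} (Polynomial.support_monomial_subset k a)]
  simp

lemma l1raw_mul (p q : R[X]) : l1raw ν (p * q) ≤ l1raw ν p * l1raw ν q := by
  rw [Polynomial.mul_eq_sum_sum]
  refine (l1raw_sum ν _ _).trans ?_
  unfold l1raw
  rw [Finset.sum_mul_sum]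
  apply Finset.sum_le_sum
  intro i _
  rw [Polynomial.sum]
  refine (l1raw_sum ν _ _).trans ?_
  apply Finset.sum_le_sum
  intro j _
  rw [l1raw_monomial]
  exact map_mul_le_mul ν _ _

/-- the l1 extension of a ring seminorm to polynomials -/
noncomputable def l1 : RingSeminorm R[X] where
  toFun := l1raw ν
  map_zero' := l1raw_zero ν
  add_le' := l1raw_add ν
  neg' p := by
    unfold l1raw
    rw [Polynomial.support_neg]
    apply Finset.sum_congr rfl
    intro i _
    rw [Polynomial.coeff_neg]
    exact map_neg_eq_map ν _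
  mul_le' := l1raw_mul ν

lemma l1_apply (p : R[X]) : l1 ν p = l1raw ν p := rfl

lemma l1_X : l1 ν (X : R[X]) = ν 1 := by
  rw [l1_apply, ← Polynomial.monomial_one_one_eq_X, l1raw_monomial]

lemma l1_C (a : R) : l1 ν (C a) = ν a := by
  rw [l1_apply, ← Polynomial.monomial_zero_left, l1raw_monomial]

end l1

/-! ### determinants -/

lemma seminorm_prod_le {R : Type*} [CommRing R] (μ : RingSeminorm R) (h1 : μ 1 ≤ 1)
    {ι : Type*} (s : Finset ι) (f : ι → R) : μ (∏ i ∈ s, f i) ≤ ∏ i ∈ s, μ (f i) := by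
  classical
  induction s using Finset.induction_on with
  | empty => simpa using h1
  | insert a s ha ih =>
    rw [Finset.prod_insert ha, Finset.prod_insert ha]
    exact (map_mul_le_mul μ _ _).trans (mul_le_mul_of_nonneg_left ih (apply_nonneg μ _))

lemma seminorm_sum_le {R : Type*} [CommRing R] (μ : RingSeminorm R)
    {ι : Type*} (s : Finset ι) (f : ι → R) : μ (∑ i ∈ s, f i) ≤ ∑ i ∈ s, μ (f i) := by
  classical
  induction s using Finset.induction_on with
  | empty => simp
  | insert a s ha ih =>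
    rw [Finset.sum_insert ha, Finset.sum_insert ha]
    exact (map_add_le_add μ _ _).trans (by linarith)

lemma seminorm_det_le {R : Type*} [CommRing R] (μ : RingSeminorm R) (h1 : μ 1 ≤ 1)
    {m : Type*} [Fintype m] [DecidableEq m] (A : Matrix m m R) :
    μ A.det ≤ ∏ i, ∑ j, μ (A i j) := by
  rw [← Matrix.det_transpose, Matrix.det_apply]
  refine (seminorm_sum_le μ _ _).trans ?_
  have hstep : ∀ σ : Equiv.Perm m, μ (Equiv.Perm.sign σ • ∏ i, A.transpose (σ i) i) ≤
      ∏ i, μ (A i (σ i)) := by
    intro σ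
    have : μ (Equiv.Perm.sign σ • ∏ i, A.transpose (σ i) i) = μ (∏ i, A i (σ i)) := by
      rcases Int.units_eq_one_or (Equiv.Perm.sign σ) with h | h
      · rw [h]; simp
      · rw [h, Units.neg_smul, one_smul]; simp
    rw [this]
    exact seminorm_prod_le μ h1 _ _
  refine (Finset.sum_le_sum fun σ _ => hstep σ).trans ?_
  rw [Finset.prod_univ_sum]
  have hinj : Function.Injective (fun σ : Equiv.Perm m => (fun i => σ i : m → m)) :=
    fun σ τ h => Equiv.ext fun i => congrFun h i
  have himg : ∑ σ : Equiv.Perm m, ∏ i, μ (A i (σ i)) =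
      ∑ g ∈ (Finset.univ : Finset (Equiv.Perm m)).image (fun σ => (fun i => σ i : m → m)),
        ∏ i, μ (A i (g i)) := by
    rw [Finset.sum_image]
    intro a _ b _ h
    exact hinj h
  rw [himg]
  apply Finset.sum_le_sum_of_subset_of_nonneg
  · intro g _
    simp
  · intro g _ _
    exact Finset.prod_nonneg fun i _ => apply_nonneg μ _

/-! ### nonvanishing of bivariate integer polynomials -/

lemma lead_lower (M : ℕ) (q : ℕ → ℤ) (H u : ℝ) (hne : ∃ i ∈ range (M + 1), q i ≠ 0)
    (hH : ∑ i ∈ range (M + 1), |(q i : ℝ)| ≤ H) (hu : H + 1 ≤ u) :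
    1 ≤ |∑ i ∈ range (M + 1), (q i : ℝ) * u ^ i| := by
  have hH0 : 0 ≤ H := le_trans (Finset.sum_nonneg fun i _ => abs_nonneg _) hH
  have hu1 : 1 ≤ u := by linarith
  induction M with
  | zero =>
    obtain ⟨i, hi, hq⟩ := hne
    have hi0 : i = 0 := by simpa using hi
    subst hi0
    simp only [zero_add, range_one, sum_singleton, pow_zero, mul_one]
    have : (1 : ℤ) ≤ |q 0| := Int.one_le_abs hq
    exact_mod_cast this
  | succ M ih =>
    by_cases h0 : q (M + 1) = 0
    · rw [Finset.sum_range_succ, h0]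
      rw [Finset.sum_range_succ, h0] at hH
      simp only [Int.cast_zero, zero_mul, add_zero, abs_zero] at hH ⊢
      apply ih _ hH
      obtain ⟨i, hi, hq⟩ := hne
      refine ⟨i, ?_, hq⟩
      rw [Finset.mem_range] at hi ⊢
      rcases Nat.lt_or_ge i (M + 1) with h | h
      · exact h
      · exfalso
        have : i = M + 1 := by omega
        rw [this] at hq
        exact hq h0
    · have h1 : (1 : ℝ) ≤ |(q (M + 1) : ℝ)| := by
        have : (1 : ℤ) ≤ |q (M + 1)| := Int.one_le_abs h0
        exact_mod_cast this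
      rw [Finset.sum_range_succ] at hH ⊢
      have hrest : |∑ i ∈ range (M + 1), (q i : ℝ) * u ^ i| ≤
          (∑ i ∈ range (M + 1), |(q i : ℝ)|) * u ^ M := by
        rw [Finset.sum_mul]
        refine (Finset.abs_sum_le_sum_abs _ _).trans (Finset.sum_le_sum fun i hi => ?_)
        rw [abs_mul, abs_pow, abs_of_nonneg (by linarith : (0:ℝ) ≤ u)]
        apply mul_le_mul_of_nonneg_left _ (abs_nonneg _)
        exact pow_le_pow_right₀ hu1 (by have := Finset.mem_range.1 hi; omega)
      have hpow : (1 : ℝ) ≤ u ^ M := one_le_pow₀ hu1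
      have htop : |(q (M + 1) : ℝ) * u ^ (M + 1)| = |(q (M + 1) : ℝ)| * (u * u ^ M) := by
        rw [abs_mul, abs_pow, abs_of_nonneg (by linarith : (0:ℝ) ≤ u), pow_succ]; ring
      have htri : |(q (M + 1) : ℝ) * u ^ (M + 1)| - |∑ i ∈ range (M + 1), (q i : ℝ) * u ^ i| ≤
          |∑ i ∈ range (M + 1), (q i : ℝ) * u ^ i + (q (M + 1) : ℝ) * u ^ (M + 1)| := by
        have := abs_sub_abs_le_abs_sub ((q (M + 1) : ℝ) * u ^ (M + 1))
          (-(∑ i ∈ range (M + 1), (q i : ℝ) * u ^ i))
        rw [abs_neg, sub_neg_eq_add, add_comm ((q (M + 1) : ℝ) * u ^ (M + 1))] at this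
        exact this
      refine le_trans ?_ htri
      rw [htop]
      set a := |(q (M + 1) : ℝ)| with ha
      set S := ∑ i ∈ range (M + 1), |(q i : ℝ)| with hS
      have hS' : S ≤ H - a := by linarith
      have h2 : S * u ^ M ≤ (H - a) * u ^ M := mul_le_mul_of_nonneg_right hS' (by linarith)
      have h3 : 1 * u ^ M ≤ (a * u - (H - a)) * u ^ M := by
        apply mul_le_mul_of_nonneg_right _ (by linarith)
        nlinarith
      nlinarith

theorem key_nonvanishing (M K : ℕ) (c : ℕ → ℕ → ℤ) (H u w : ℝ)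
    (hH : ∑ k ∈ range (K + 1), ∑ i ∈ range (M + 1), |(c k i : ℝ)| ≤ H)
    (hne : ∃ k ∈ range (K + 1), ∃ i ∈ range (M + 1), c k i ≠ 0)
    (hu : H + 1 ≤ u) (hw : H * u ^ M < w) (hw1 : 1 ≤ w) :
    ∑ k ∈ range (K + 1), (∑ i ∈ range (M + 1), (c k i : ℝ) * u ^ i) * w ^ k ≠ 0 := by
  have hH0 : 0 ≤ H := le_trans (Finset.sum_nonneg fun k _ =>
    Finset.sum_nonneg fun i _ => abs_nonneg _) hH
  have hu1 : 1 ≤ u := by linarith
  have hw0 : 0 < w := by linarith
  induction K with
  | zero =>
    obtain ⟨k, hk, hi⟩ := hne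
    have hk0 : k = 0 := by simpa using hk
    subst hk0
    simp only [zero_add, range_one, sum_singleton, pow_zero, mul_one] at hH ⊢
    have := lead_lower M (c 0) H u hi hH hu
    intro h
    rw [h] at this
    norm_num at this
  | succ K ih =>
    by_cases h0 : ∃ i ∈ range (M + 1), c (K + 1) i ≠ 0
    · rw [Finset.sum_range_succ] at hH ⊢
      have hle : ∑ i ∈ range (M + 1), |(c (K + 1) i : ℝ)| ≤ H := by
        have : 0 ≤ ∑ k ∈ range (K + 1), ∑ i ∈ range (M + 1), |(c k i : ℝ)| :=
          Finset.sum_nonneg fun k _ => Finset.sum_nonneg fun i _ => abs_nonneg _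
        linarith
      have hlead := lead_lower M (c (K + 1)) H u h0 hle hu
      have hrest : |∑ k ∈ range (K + 1), (∑ i ∈ range (M + 1), (c k i : ℝ) * u ^ i) * w ^ k| ≤
          (H * u ^ M) * w ^ K := by
        have h1 : |∑ k ∈ range (K + 1), (∑ i ∈ range (M + 1), (c k i : ℝ) * u ^ i) * w ^ k| ≤
            ∑ k ∈ range (K + 1), (∑ i ∈ range (M + 1), |(c k i : ℝ)|) * (u ^ M * w ^ K) := by
          refine (Finset.abs_sum_le_sum_abs _ _).trans (Finset.sum_le_sum fun k hk => ?_)
          rw [abs_mul, abs_pow, abs_of_pos hw0, ← mul_assoc]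
          apply mul_le_mul _ _ (by positivity) (by positivity)
          · rw [Finset.sum_mul]
            refine (Finset.abs_sum_le_sum_abs _ _).trans (Finset.sum_le_sum fun i hi => ?_)
            rw [abs_mul, abs_pow, abs_of_nonneg (by linarith : (0:ℝ) ≤ u)]
            apply mul_le_mul_of_nonneg_left _ (abs_nonneg _)
            exact pow_le_pow_right₀ hu1 (by have := Finset.mem_range.1 hi; omega)
          · exact pow_le_pow_right₀ hw1 (by have := Finset.mem_range.1 hk; omega)
        refine h1.trans ?_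
        rw [← Finset.sum_mul, ← mul_assoc]
        apply mul_le_mul_of_nonneg_right _ (by positivity)
        apply mul_le_mul_of_nonneg_right _ (by positivity)
        have : 0 ≤ ∑ i ∈ range (M + 1), |(c (K + 1) i : ℝ)| :=
          Finset.sum_nonneg fun i _ => abs_nonneg _
        linarith
      intro heq
      have h2 : (∑ i ∈ range (M + 1), (c (K + 1) i : ℝ) * u ^ i) * w ^ (K + 1) =
          -∑ k ∈ range (K + 1), (∑ i ∈ range (M + 1), (c k i : ℝ) * u ^ i) * w ^ k := by
        linarith
      have h3 : w ^ (K + 1) ≤ (H * u ^ M) * w ^ K := by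
        calc w ^ (K + 1) = 1 * w ^ (K + 1) := (one_mul _).symm
          _ ≤ |∑ i ∈ range (M + 1), (c (K + 1) i : ℝ) * u ^ i| * w ^ (K + 1) :=
              mul_le_mul_of_nonneg_right hlead (by positivity)
          _ = |(∑ i ∈ range (M + 1), (c (K + 1) i : ℝ) * u ^ i) * w ^ (K + 1)| := by
              rw [abs_mul, abs_of_pos (pow_pos hw0 (K + 1))]
          _ ≤ (H * u ^ M) * w ^ K := by rw [h2, abs_neg]; exact hrest
      have h4 : w * w ^ K ≤ (H * u ^ M) * w ^ K := by rw [← pow_succ']; exact h3
      have h5 : w ≤ H * u ^ M := le_of_mul_le_mul_right h4 (by positivity)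
      linarith
    · push Not at h0
      rw [Finset.sum_range_succ] at hH ⊢
      have hz : ∑ i ∈ range (M + 1), (c (K + 1) i : ℝ) * u ^ i = 0 :=
        Finset.sum_eq_zero fun i hi => by rw [h0 i hi]; simp
      rw [hz, zero_mul, add_zero]
      apply ih
      · have : 0 ≤ ∑ i ∈ range (M + 1), |(c (K + 1) i : ℝ)| :=
          Finset.sum_nonneg fun i _ => abs_nonneg _
        linarith
      · obtain ⟨k, hk, i, hi, hc⟩ := hne
        refine ⟨k, ?_, i, hi, hc⟩
        rw [Finset.mem_range] at hk ⊢
        rcases Nat.lt_or_ge k (K + 1) with h | h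
        · exact h
        · exfalso
          have : k = K + 1 := by omega
          rw [this] at hc
          exact hc (h0 i hi)

end Pool.Agent.helper98.Gap
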