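import Mathlib
import Pool.Agent.helper98.Gap.Alg

set_option autoImplicit false

open Polynomial Finset

namespace Pool.Agent.helper98.Gap

/-- A sparse polynomial with integer coefficients in `n` variables, of degree at most four. -/
structure Sparse (n : ℕ) where
  T : Type
  fin : Fintype T
  c : T → ℤ
  e : T → Fin n → ℕ
  deg : ∀ s, ∑ j, e s j ≤ 4

attribute [instance] Sparse.fin

variable {n : ℕ}

/-- value of a monomial -/
noncomputable def mon (x : Fin n → ℝ) (b : Fin n → ℕ) : ℝ := ∏ j, x j ^ b j

/-- value of a sparse polynomial -/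
noncomputable def Sparse.val (f : Sparse n) (x : Fin n → ℝ) : ℝ :=
  ∑ s, (f.c s : ℝ) * mon x (f.e s)

/-- size of a sparse polynomial -/
noncomputable def Sparse.size (f : Sparse n) : ℝ := ∑ s, |(f.c s : ℝ)|

/-- value of the partial derivative -/
noncomputable def Sparse.dval (f : Sparse n) (i : Fin n) (x : Fin n → ℝ) : ℝ :=
  ∑ s, (f.c s : ℝ) * (f.e s i : ℝ) * mon x (fun j => f.e s j - (if j = i then 1 else 0))

/-- the sum of sixth powers -/
noncomputable def six (x : Fin n → ℝ) : ℝ := ∑ i, x i ^ 6

/-- the critical relations -/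
def Crit (f : Sparse n) (w : ℝ) (x : Fin n → ℝ) : Prop := ∀ i, x i ^ 5 = - w * f.dval i x

/-- value of a box monomial -/
noncomputable def bm (x : Fin n → ℝ) (a : Fin n → Fin 5) : ℝ := ∏ j, x j ^ (a j : ℕ)

/-- the l1 norm on integer polynomials -/
noncomputable abbrev N1 : RingSeminorm ℤ[X] := l1 absZ

lemma absZ_apply (k : ℤ) : absZ k = |(k : ℝ)| := rfl

lemma N1_C (k : ℤ) : N1 (C k) = |(k : ℝ)| := by rw [N1, l1_C, absZ_apply]

lemma N1_X : N1 (X : ℤ[X]) = 1 := by rw [N1, l1_X, absZ_apply]; simp

lemma N1_one : N1 (1 : ℤ[X]) = 1 := by rw [← C_1, N1_C]; simp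

lemma mon_add (x : Fin n → ℝ) (a b : Fin n → ℕ) : mon x (fun j => a j + b j) = mon x a * mon x b := by
  unfold mon
  rw [← Finset.prod_mul_distrib]
  exact Finset.prod_congr rfl fun j _ => pow_add _ _ _

lemma mon_single (x : Fin n → ℝ) (i : Fin n) (k : ℕ) :
    mon x (fun j => if j = i then k else 0) = x i ^ k := by
  unfold mon
  rw [Finset.prod_eq_single i]
  · simp
  · intro j _ hj; simp [hj]
  · intro h; exact absurd (Finset.mem_univ _) h

lemma sum_eq_of_single (i : Fin n) (k : ℕ) : ∑ j : Fin n, (if j = i then k else 0) = k := by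
  rw [Finset.sum_ite_eq' Finset.univ i (fun _ => k)]
  simp

theorem reduce (f : Sparse n) (L : ℝ) (hL : f.size ≤ L) (hL1 : 1 ≤ L) :
    ∀ (D : ℕ) (b : Fin n → ℕ), ∑ j, b j ≤ D →
      ∃ p : (Fin n → Fin 5) → ℤ[X], ∑ a, N1 (p a) ≤ (4 * L) ^ D ∧
        ∀ w x, Crit f w x → mon x b = ∑ a, (p a).eval₂ (Int.castRingHom ℝ) w * bm x a := by
  intro D
  induction D with
  | zero =>
    intro b hb
    refine ⟨fun a => if a = 0 then 1 else 0, ?_, ?_⟩
    · rw [Finset.sum_eq_single 0]
      · simp [N1_one]
      · intro a _ ha; simp [ha]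
      · intro h; exact absurd (Finset.mem_univ _) h
    · intro w x _
      have hb0 : ∀ j, b j = 0 := by
        intro j
        have := Finset.single_le_sum (f := b) (fun _ _ => Nat.zero_le _) (Finset.mem_univ j)
        omega
      rw [Finset.sum_eq_single 0]
      · simp [mon, bm, hb0]
      · intro a _ ha; simp [ha]
      · intro h; exact absurd (Finset.mem_univ _) h
  | succ D ih =>
    intro b hb
    have hL4 : (1 : ℝ) ≤ 4 * L := by linarith
    by_cases hbox : ∀ j, b j < 5
    · set a0 : Fin n → Fin 5 := fun j => ⟨b j, hbox j⟩ with ha0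
      refine ⟨fun a => if a = a0 then 1 else 0, ?_, ?_⟩
      · rw [Finset.sum_eq_single a0]
        · simp only [if_true, N1_one]
          exact one_le_pow₀ hL4
        · intro a _ ha; simp [ha]
        · intro h; exact absurd (Finset.mem_univ _) h
      · intro w x _
        rw [Finset.sum_eq_single a0]
        · simp [mon, bm, ha0]
        · intro a _ ha; simp [ha]
        · intro h; exact absurd (Finset.mem_univ _) h
    · push Not at hbox
      obtain ⟨i, hi⟩ := hbox
      -- the exponents appearing after one rewriting step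
      set g : Fin n → ℕ := fun j => b j - (if j = i then 5 else 0) with hg
      have hbg : b = fun j => g j + (if j = i then 5 else 0) := by
        funext j
        simp only [hg]
        split_ifs with h
        · subst h; omega
        · omega
      have hsumg : ∑ j, b j = ∑ j, g j + 5 := by
        conv_lhs => rw [hbg]
        rw [Finset.sum_add_distrib, sum_eq_of_single]
      set d : f.T → Fin n → ℕ := fun s j => g j + (f.e s j - (if j = i then 1 else 0)) with hd
      have hdsum : ∀ s, ∑ j, d s j ≤ D := by
        intro s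
        have h1 : ∑ j, d s j ≤ ∑ j, g j + 4 := by
          simp only [hd]
          rw [Finset.sum_add_distrib]
          apply Nat.add_le_add_left
          refine le_trans (Finset.sum_le_sum fun j _ => Nat.sub_le _ _) (f.deg s)
        omega
      choose p hp1 hp2 using fun s => ih (d s) (hdsum s)
      refine ⟨fun a => ∑ s, (-X * C (f.c s * (f.e s i : ℤ))) * p s a, ?_, ?_⟩
      · have hstep : ∀ a, N1 (∑ s, (-X * C (f.c s * (f.e s i : ℤ))) * p s a) ≤
            ∑ s, (4 * |(f.c s : ℝ)|) * N1 (p s a) := by
          intro a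
          refine (seminorm_sum_le N1 _ _).trans (Finset.sum_le_sum fun s _ => ?_)
          refine (map_mul_le_mul N1 _ _).trans (mul_le_mul_of_nonneg_right ?_ (apply_nonneg N1 _))
          refine (map_mul_le_mul N1 _ _).trans ?_
          rw [map_neg_eq_map, N1_X, one_mul, N1_C]
          push_cast
          rw [abs_mul]
          have h4 : |(f.e s i : ℝ)| ≤ 4 := by
            rw [abs_of_nonneg (by positivity)]
            have h1 := Finset.single_le_sum (f := f.e s) (fun _ _ => Nat.zero_le _)
              (Finset.mem_univ i)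
            exact_mod_cast h1.trans (f.deg s)
          nlinarith [abs_nonneg (f.c s : ℝ)]
        calc ∑ a, N1 (∑ s, (-X * C (f.c s * (f.e s i : ℤ))) * p s a)
            ≤ ∑ a, ∑ s, (4 * |(f.c s : ℝ)|) * N1 (p s a) := Finset.sum_le_sum fun a _ => hstep a
          _ = ∑ s, (4 * |(f.c s : ℝ)|) * ∑ a, N1 (p s a) := by
              rw [Finset.sum_comm]
              exact Finset.sum_congr rfl fun s _ => by rw [Finset.mul_sum]
          _ ≤ ∑ s, (4 * |(f.c s : ℝ)|) * (4 * L) ^ D :=
              Finset.sum_le_sum fun s _ => mul_le_mul_of_nonneg_left (hp1 s) (by positivity)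
          _ = (4 * f.size) * (4 * L) ^ D := by
              rw [← Finset.sum_mul, ← Finset.mul_sum]; rfl
          _ ≤ (4 * L) * (4 * L) ^ D := by
              apply mul_le_mul_of_nonneg_right _ (by positivity)
              linarith
          _ = (4 * L) ^ (D + 1) := by rw [pow_succ]; ring
      · intro w x hx
        have h1 : mon x b = ∑ s, (-w * ((f.c s : ℝ) * (f.e s i : ℝ))) * mon x (d s) := by
          conv_lhs => rw [hbg]
          rw [mon_add, mon_single, hx i, Sparse.dval, Finset.mul_sum, Finset.mul_sum]
          apply Finset.sum_congr rfl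
          intro s _
          simp only [hd]
          rw [mon_add]
          ring
        rw [h1]
        have h2 : ∀ a, (∑ s, (-X * C (f.c s * (f.e s i : ℤ))) * p s a).eval₂
            (Int.castRingHom ℝ) w * bm x a =
            ∑ s, (-w * ((f.c s : ℝ) * (f.e s i : ℝ))) *
              ((p s a).eval₂ (Int.castRingHom ℝ) w * bm x a) := by
          intro a
          rw [Polynomial.eval₂_finsetSum, Finset.sum_mul]
          apply Finset.sum_congr rfl
          intro s _
          rw [Polynomial.eval₂_mul, Polynomial.eval₂_mul, Polynomial.eval₂_neg, Polynomial.eval₂_X,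
            Polynomial.eval₂_C]
          push_cast
          simp only [eq_intCast, Int.cast_mul, Int.cast_natCast]
          ring
        rw [Finset.sum_congr rfl fun a _ => h2 a, Finset.sum_comm]
        apply Finset.sum_congr rfl
        intro s _
        rw [← Finset.mul_sum, ← hp2 s w x hx]

end Pool.Agent.helper98.Gap
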