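import Mathlib
import Pool.Agent.helper98.Gap.Red

set_option autoImplicit false

open Polynomial Finset

namespace Pool.Agent.helper98.Gap

variable {n : ℕ}

/-- the objective function -/
noncomputable def obj (f : Sparse n) (w : ℝ) (x : Fin n → ℝ) : ℝ := 6 * w * f.val x + six x

lemma bm_eq_mon (x : Fin n → ℝ) (a : Fin n → Fin 5) : bm x a = mon x (fun j => (a j : ℕ)) := rfl

theorem row (f : Sparse n) (L : ℝ) (hL : f.size ≤ L) (hL1 : 1 ≤ L) (a : Fin n → Fin 5) :
    ∃ q : (Fin n → Fin 5) → ℤ[X], ∑ b, N1 (q b) ≤ (6 * L + n) * (4 * L) ^ (4 * n + 6) ∧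
      ∀ w x, Crit f w x → obj f w x * bm x a =
        ∑ b, (q b).eval₂ (Int.castRingHom ℝ) w * bm x b := by
  have hL4 : (1 : ℝ) ≤ 4 * L := by linarith
  have ha : ∑ j, (a j : ℕ) ≤ 4 * n := by
    calc ∑ j, (a j : ℕ) ≤ ∑ _j : Fin n, 4 := Finset.sum_le_sum fun j _ => by
          have := (a j).isLt; omega
      _ = 4 * n := by simp [mul_comm]
  have h1 : ∀ s, ∑ j, (f.e s j + (a j : ℕ)) ≤ 4 * n + 6 := by
    intro s
    rw [Finset.sum_add_distrib]
    have := f.deg s
    omega
  have h2 : ∀ i : Fin n, ∑ j, ((if j = i then 6 else 0) + (a j : ℕ)) ≤ 4 * n + 6 := by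
    intro i
    rw [Finset.sum_add_distrib, sum_eq_of_single]
    omega
  choose p hp1 hp2 using fun s => reduce f L hL hL1 (4 * n + 6) _ (h1 s)
  choose r hr1 hr2 using fun i => reduce f L hL hL1 (4 * n + 6) _ (h2 i)
  refine ⟨fun b => ∑ s, (X * C (6 * f.c s)) * p s b + ∑ i, r i b, ?_, ?_⟩
  · have hstep : ∀ b, N1 (∑ s, (X * C (6 * f.c s)) * p s b + ∑ i, r i b) ≤
        ∑ s, (6 * |(f.c s : ℝ)|) * N1 (p s b) + ∑ i, N1 (r i b) := by
      intro b
      refine (map_add_le_add N1 _ _).trans (add_le_add ?_ (seminorm_sum_le N1 _ _))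
      refine (seminorm_sum_le N1 _ _).trans (Finset.sum_le_sum fun s _ => ?_)
      refine (map_mul_le_mul N1 _ _).trans (mul_le_mul_of_nonneg_right ?_ (apply_nonneg N1 _))
      refine (map_mul_le_mul N1 _ _).trans ?_
      rw [N1_X, one_mul, N1_C]
      push_cast
      rw [abs_mul]
      norm_num
    calc ∑ b, N1 (∑ s, (X * C (6 * f.c s)) * p s b + ∑ i, r i b)
        ≤ ∑ b, (∑ s, (6 * |(f.c s : ℝ)|) * N1 (p s b) + ∑ i, N1 (r i b)) :=
          Finset.sum_le_sum fun b _ => hstep b
      _ = ∑ s, (6 * |(f.c s : ℝ)|) * ∑ b, N1 (p s b) + ∑ i, ∑ b, N1 (r i b) := by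
          rw [Finset.sum_add_distrib, Finset.sum_comm, Finset.sum_comm (s := univ) (t := univ)
            (f := fun b i => N1 (r i b))]
          congr 1
          exact Finset.sum_congr rfl fun s _ => by rw [Finset.mul_sum]
      _ ≤ ∑ s, (6 * |(f.c s : ℝ)|) * (4 * L) ^ (4 * n + 6) + ∑ _i : Fin n, (4 * L) ^ (4 * n + 6) :=
          add_le_add (Finset.sum_le_sum fun s _ => mul_le_mul_of_nonneg_left (hp1 s) (by positivity))
            (Finset.sum_le_sum fun i _ => hr1 i)
      _ = (6 * f.size + n) * (4 * L) ^ (4 * n + 6) := by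
          rw [← Finset.sum_mul, ← Finset.mul_sum, add_mul]
          simp [Sparse.size]
      _ ≤ (6 * L + n) * (4 * L) ^ (4 * n + 6) := by
          apply mul_le_mul_of_nonneg_right _ (by positivity)
          linarith
  · intro w x hx
    have e1 : ∀ s, mon x (f.e s) * bm x a = ∑ b, (p s b).eval₂ (Int.castRingHom ℝ) w * bm x b := by
      intro s
      rw [bm_eq_mon, ← mon_add]
      exact hp2 s w x hx
    have e2 : ∀ i, x i ^ 6 * bm x a = ∑ b, (r i b).eval₂ (Int.castRingHom ℝ) w * bm x b := by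
      intro i
      rw [bm_eq_mon, ← mon_single x i 6, ← mon_add]
      exact hr2 i w x hx
    have e3 : obj f w x * bm x a = ∑ s, (6 * w * (f.c s : ℝ)) * (mon x (f.e s) * bm x a) +
        ∑ i, x i ^ 6 * bm x a := by
      unfold obj Sparse.val six
      rw [add_mul, Finset.mul_sum, Finset.sum_mul, Finset.sum_mul]
      congr 1
      apply Finset.sum_congr rfl
      intro s _
      ring
    rw [e3, Finset.sum_congr rfl fun s _ => by rw [e1 s], Finset.sum_congr rfl fun i _ => e2 i]
    have e4 : ∀ b, (∑ s, (X * C (6 * f.c s)) * p s b + ∑ i, r i b).eval₂ (Int.castRingHom ℝ) w *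
        bm x b = ∑ s, (6 * w * (f.c s : ℝ)) * ((p s b).eval₂ (Int.castRingHom ℝ) w * bm x b) +
          ∑ i, (r i b).eval₂ (Int.castRingHom ℝ) w * bm x b := by
      intro b
      rw [Polynomial.eval₂_add, Polynomial.eval₂_finsetSum, Polynomial.eval₂_finsetSum, add_mul,
        Finset.sum_mul, Finset.sum_mul]
      congr 1
      apply Finset.sum_congr rfl
      intro s _
      rw [Polynomial.eval₂_mul, Polynomial.eval₂_mul, Polynomial.eval₂_X, Polynomial.eval₂_C]
      simp only [eq_intCast, Int.cast_mul, Int.cast_ofNat]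
      ring
    rw [Finset.sum_congr rfl fun b _ => e4 b, Finset.sum_add_distrib,
      Finset.sum_comm (s := (univ : Finset (Fin n → Fin 5))) (t := univ),
      Finset.sum_comm (s := (univ : Finset (Fin n → Fin 5))) (t := univ)
        (f := fun b i => (r i b).eval₂ (Int.castRingHom ℝ) w * bm x b)]
    congr 1
    apply Finset.sum_congr rfl
    intro s _
    rw [Finset.mul_sum]

/-- explicit height bound -/
noncomputable def hgt (n : ℕ) (L : ℝ) : ℝ := (1 + (6 * L + n) * (4 * L) ^ (4 * n + 6)) ^ (5 ^ n)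

theorem exists_biv (f : Sparse n) (L : ℝ) (hL : f.size ≤ L) (hL1 : 1 ≤ L) :
    ∃ (K : ℕ) (c : ℕ → ℕ → ℤ),
      ∑ k ∈ range (K + 1), ∑ i ∈ range (5 ^ n + 1), |(c k i : ℝ)| ≤ hgt n L ∧
      (∃ k ∈ range (K + 1), ∃ i ∈ range (5 ^ n + 1), c k i ≠ 0) ∧
      ∀ w x, Crit f w x →
        ∑ k ∈ range (K + 1), (∑ i ∈ range (5 ^ n + 1), (c k i : ℝ) * obj f w x ^ i) * w ^ k = 0 := by
  classical
  choose q hq1 hq2 using row f L hL hL1
  set A : Matrix (Fin n → Fin 5) (Fin n → Fin 5) ℤ[X] := Matrix.of q with hA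
  set P := A.charpoly with hP
  set N2 : RingSeminorm ℤ[X][X] := l1 N1 with hN2
  have hN2one : N2 1 = 1 := by rw [hN2, ← C_1, l1_C, N1_one]
  have hcard : Fintype.card (Fin n → Fin 5) = 5 ^ n := by simp
  have hdeg : P.natDegree = 5 ^ n := by rw [hP, Matrix.charpoly_natDegree_eq_dim, hcard]
  have hmonic : P.Monic := Matrix.charpoly_monic A
  set K := ∑ i ∈ range (5 ^ n + 1), (P.coeff i).natDegree with hK
  have hKle : ∀ i ∈ range (5 ^ n + 1), (P.coeff i).natDegree ≤ K := fun i hi =>
    Finset.single_le_sum (f := fun i => (P.coeff i).natDegree) (fun _ _ => Nat.zero_le _) hi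
  refine ⟨K, fun k i => (P.coeff i).coeff k, ?_, ?_, ?_⟩
  · -- the norm bound
    have h1 : ∑ k ∈ range (K + 1), ∑ i ∈ range (5 ^ n + 1), |(((P.coeff i).coeff k : ℤ) : ℝ)| =
        N2 P := by
      rw [Finset.sum_comm, hN2, l1_apply, l1raw_eq_of_subset N1 P (range (5 ^ n + 1))]
      · apply Finset.sum_congr rfl
        intro i hi
        rw [N1, l1_apply, l1raw_eq_of_subset absZ (P.coeff i) (range (K + 1))]
        · rfl
        · intro k hk
          rw [Finset.mem_range]
          have := Polynomial.le_natDegree_of_mem_supp k hk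
          have := hKle i hi
          omega
      · intro i hi
        rw [Finset.mem_range]
        have := Polynomial.le_natDegree_of_mem_supp i hi
        omega
    rw [h1, hP, Matrix.charpoly]
    refine (seminorm_det_le N2 hN2one.le _).trans ?_
    unfold hgt
    rw [← hcard, ← Finset.card_univ, ← Finset.prod_const]
    apply Finset.prod_le_prod
    · intro i _
      exact Finset.sum_nonneg fun j _ => apply_nonneg N2 _
    · intro i _
      have h2 : ∀ j, N2 (A.charmatrix i j) ≤ (if j = i then 1 else 0) + N1 (q i j) := by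
        intro j
        by_cases hij : j = i
        · subst hij
          rw [Matrix.charmatrix_apply_eq, if_pos rfl]
          refine (map_sub_le_add N2 _ _).trans ?_
          rw [hN2, l1_X, l1_C, N1_one]
          exact le_of_eq rfl
        · rw [Matrix.charmatrix_apply_ne _ _ _ (Ne.symm hij), if_neg hij, map_neg_eq_map, hN2, l1_C,
            zero_add]
          exact le_of_eq rfl
      refine (Finset.sum_le_sum fun j _ => h2 j).trans ?_
      rw [Finset.sum_add_distrib, Finset.sum_ite_eq' Finset.univ i (fun _ => (1:ℝ))]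
      simp only [Finset.mem_univ, if_true]
      linarith [hq1 i]
  · refine ⟨0, by simp, 5 ^ n, by simp, ?_⟩
    have : P.coeff (5 ^ n) = 1 := by rw [← hdeg]; exact hmonic
    show (P.coeff (5 ^ n)).coeff 0 ≠ 0
    rw [this]
    simp
  · intro w x hx
    set u := obj f w x with hu
    set φ : ℤ[X] →+* ℝ := Polynomial.eval₂RingHom (Int.castRingHom ℝ) w with hφ
    set Ar : Matrix (Fin n → Fin 5) (Fin n → Fin 5) ℝ := A.map φ with hAr
    have hdet : (Matrix.scalar _ u - Ar).det = 0 := by
      rw [← Matrix.exists_mulVec_eq_zero_iff]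
      refine ⟨bm x, ?_, ?_⟩
      · intro h0
        have := congrFun h0 0
        simp [bm] at this
      · funext a
        have h3 := hq2 a w x hx
        rw [Matrix.sub_mulVec, Pi.sub_apply, Pi.zero_apply, sub_eq_zero]
        have h4 : (Matrix.scalar (Fin n → Fin 5) u).mulVec (bm x) a = u * bm x a := by
          rw [Matrix.scalar_apply, Matrix.mulVec_diagonal]
        rw [h4, h3]
        rfl
    have heval : (P.map φ).eval u = 0 := by
      rw [hP, ← Matrix.charpoly_map, Matrix.eval_charpoly]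
      exact hdet
    rw [Polynomial.eval_map, Polynomial.eval₂_eq_sum_range' φ (n := 5 ^ n + 1) (by omega)] at heval
    have h5 : ∀ i ∈ range (5 ^ n + 1), φ (P.coeff i) =
        ∑ k ∈ range (K + 1), ((P.coeff i).coeff k : ℝ) * w ^ k := by
      intro i hi
      rw [hφ, Polynomial.coe_eval₂RingHom, Polynomial.eval₂_eq_sum_range' (Int.castRingHom ℝ)
        (n := K + 1) (by have := hKle i hi; omega)]
      rfl
    rw [← heval]
    have h6 : ∀ k ∈ range (K + 1), (∑ i ∈ range (5 ^ n + 1), (((P.coeff i).coeff k : ℤ) : ℝ) * u ^ i) *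
        w ^ k = ∑ i ∈ range (5 ^ n + 1), (((P.coeff i).coeff k : ℤ) : ℝ) * w ^ k * u ^ i := by
      intro k _
      rw [Finset.sum_mul]
      exact Finset.sum_congr rfl fun i _ => by ring
    rw [Finset.sum_congr rfl h6, Finset.sum_comm]
    apply Finset.sum_congr rfl
    intro i hi
    rw [h5 i hi, Finset.sum_mul]

end Pool.Agent.helper98.Gap
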