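import Mathlib
import Pool.Agent.helper98.Gap.Eig

set_option autoImplicit false

open Finset

namespace Pool.Agent.helper98.Gap

variable {n : ℕ}

lemma six_nonneg (x : Fin n → ℝ) : 0 ≤ six x := Finset.sum_nonneg fun i _ => by positivity

lemma continuous_mon (b : Fin n → ℕ) : Continuous (fun x : Fin n → ℝ => mon x b) := by
  unfold mon
  exact continuous_finsetProd _ fun j _ => (continuous_apply j).pow _

lemma continuous_val (f : Sparse n) : Continuous f.val := by
  unfold Sparse.val
  exact continuous_finsetSum _ fun s _ => (continuous_mon _).const_mul _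

lemma continuous_six : Continuous (six : (Fin n → ℝ) → ℝ) := by
  unfold six
  exact continuous_finsetSum _ fun s _ => (continuous_apply s).pow _

lemma continuous_obj (f : Sparse n) (w : ℝ) : Continuous (obj f w) := by
  unfold obj
  exact ((continuous_val f).const_mul _).add continuous_six

lemma isCompact_six (C : ℝ) : IsCompact {x : Fin n → ℝ | six x ≤ C} := by
  apply Metric.isCompact_of_isClosed_isBounded
  · exact isClosed_le continuous_six continuous_const
  · rw [isBounded_iff_forall_norm_le]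
    refine ⟨max 1 C, fun x hx => ?_⟩
    rw [pi_norm_le_iff_of_nonneg (le_trans zero_le_one (le_max_left _ _))]
    intro i
    rw [Real.norm_eq_abs]
    by_contra hcon
    push Not at hcon
    have h1 : 1 < |x i| := lt_of_le_of_lt (le_max_left _ _) hcon
    have h2 : C < |x i| := lt_of_le_of_lt (le_max_right _ _) hcon
    have h3 : |x i| ≤ |x i| ^ 6 := le_self_pow₀ h1.le (by norm_num)
    have h4 : |x i| ^ 6 = x i ^ 6 := Even.pow_abs (by decide) _
    have h5 : x i ^ 6 ≤ six x :=
      Finset.single_le_sum (f := fun i => x i ^ 6) (fun i _ => by positivity) (Finset.mem_univ i)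
    have h6 : six x ≤ C := hx
    linarith

lemma exists_min (f : Sparse n) (hf : ∀ x, 0 ≤ f.val x) (w : ℝ) (hw : 0 < w) :
    ∃ x, ∀ y, obj f w x ≤ obj f w y := by
  have hne : ({x : Fin n → ℝ | six x ≤ obj f w 0}).Nonempty := by
    refine ⟨0, ?_⟩
    show six (0 : Fin n → ℝ) ≤ obj f w 0
    unfold obj
    have := hf 0
    nlinarith
  obtain ⟨x, _, hx⟩ := (isCompact_six (n := n) (obj f w 0)).exists_isMinOn hne
    (continuous_obj f w).continuousOn
  refine ⟨x, fun y => ?_⟩
  by_cases hy : six y ≤ obj f w 0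
  · exact hx hy
  · push Not at hy
    have h0 : obj f w x ≤ obj f w 0 := by
      obtain ⟨z, hz⟩ := hne
      have h0mem : (0 : Fin n → ℝ) ∈ {x : Fin n → ℝ | six x ≤ obj f w 0} := by
        show six (0 : Fin n → ℝ) ≤ obj f w 0
        unfold obj
        have := hf 0
        nlinarith
      exact hx h0mem
    have h1 : six y ≤ obj f w y := by
      unfold obj
      have := hf y
      have : 0 ≤ 6 * w * f.val y := by positivity
      linarith
    linarith

/-- moving one coordinate -/
noncomputable def mv (x : Fin n → ℝ) (i : Fin n) (t : ℝ) : Fin n → ℝ := Function.update x i t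

lemma hasDerivAt_mon (x : Fin n → ℝ) (i : Fin n) (b : Fin n → ℕ) :
    HasDerivAt (fun t => mon (mv x i t) b)
      ((b i : ℝ) * mon x (fun j => b j - (if j = i then 1 else 0))) (x i) := by
  have h1 : ∀ t, mon (mv x i t) b = t ^ b i * ∏ j ∈ Finset.univ.erase i, x j ^ b j := by
    intro t
    unfold mon mv
    rw [← Finset.mul_prod_erase Finset.univ _ (Finset.mem_univ i)]
    congr 1
    · simp
    · apply Finset.prod_congr rfl
      intro j hj
      rw [Function.update_of_ne (Finset.ne_of_mem_erase hj)]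
  have h2 : mon x (fun j => b j - (if j = i then 1 else 0)) =
      x i ^ (b i - 1) * ∏ j ∈ Finset.univ.erase i, x j ^ b j := by
    unfold mon
    rw [← Finset.mul_prod_erase Finset.univ _ (Finset.mem_univ i)]
    congr 1
    · simp
    · apply Finset.prod_congr rfl
      intro j hj
      simp [Finset.ne_of_mem_erase hj]
  rw [h2, ← mul_assoc]
  simp_rw [h1]
  exact (hasDerivAt_pow (b i) (x i)).mul_const _

lemma hasDerivAt_val (f : Sparse n) (x : Fin n → ℝ) (i : Fin n) :
    HasDerivAt (fun t => f.val (mv x i t)) (f.dval i x) (x i) := by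
  unfold Sparse.val Sparse.dval
  apply HasDerivAt.fun_sum
  intro s _
  rw [mul_assoc]
  exact (hasDerivAt_mon x i (f.e s)).const_mul _

lemma hasDerivAt_six (x : Fin n → ℝ) (i : Fin n) :
    HasDerivAt (fun t => six (mv x i t)) (6 * x i ^ 5) (x i) := by
  have h1 : ∀ t, six (mv x i t) = t ^ 6 + ∑ j ∈ Finset.univ.erase i, x j ^ 6 := by
    intro t
    unfold six mv
    rw [← Finset.add_sum_erase Finset.univ _ (Finset.mem_univ i)]
    congr 1
    · simp
    · apply Finset.sum_congr rfl
      intro j hj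
      rw [Function.update_of_ne (Finset.ne_of_mem_erase hj)]
  simp_rw [h1]
  have := (hasDerivAt_pow 6 (x i)).add_const (∑ j ∈ Finset.univ.erase i, x j ^ 6)
  simpa using this

lemma crit_of_min (f : Sparse n) (w : ℝ) (x : Fin n → ℝ) (hx : ∀ y, obj f w x ≤ obj f w y) :
    Crit f w x := by
  intro i
  have hself : mv x i (x i) = x := by unfold mv; simp
  have hd : HasDerivAt (fun t => obj f w (mv x i t)) (6 * w * f.dval i x + 6 * x i ^ 5) (x i) := by
    unfold obj
    exact ((hasDerivAt_val f x i).const_mul (6 * w)).add (hasDerivAt_six x i)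
  have hmin : IsLocalMin (fun t => obj f w (mv x i t)) (x i) := by
    apply Filter.Eventually.of_forall
    intro t
    show obj f w (mv x i (x i)) ≤ obj f w (mv x i t)
    rw [hself]
    exact hx _
  have := hmin.hasDerivAt_eq_zero hd
  linarith

/-- the optimal value -/
noncomputable def opt (f : Sparse n) (w : ℝ) : ℝ := sInf (Set.range (obj f w))

lemma obj_nonneg (f : Sparse n) (hf : ∀ x, 0 ≤ f.val x) (w : ℝ) (hw : 0 < w) (x : Fin n → ℝ) :
    0 ≤ obj f w x := by
  unfold obj
  have := hf x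
  have := six_nonneg x
  positivity

lemma opt_le (f : Sparse n) (hf : ∀ x, 0 ≤ f.val x) (w : ℝ) (hw : 0 < w) (x : Fin n → ℝ) :
    opt f w ≤ obj f w x := by
  apply csInf_le
  · refine ⟨0, ?_⟩
    rintro _ ⟨y, rfl⟩
    exact obj_nonneg f hf w hw y
  · exact ⟨x, rfl⟩

lemma exists_opt (f : Sparse n) (hf : ∀ x, 0 ≤ f.val x) (w : ℝ) (hw : 0 < w) :
    ∃ x, obj f w x = opt f w ∧ Crit f w x := by
  obtain ⟨x, hx⟩ := exists_min f hf w hw
  refine ⟨x, le_antisymm ?_ (opt_le f hf w hw x), crit_of_min f w x hx⟩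
  apply le_csInf (Set.range_nonempty _)
  rintro _ ⟨y, rfl⟩
  exact hx y

lemma opt_mono (f : Sparse n) (hf : ∀ x, 0 ≤ f.val x) (w w' : ℝ) (hw : 0 < w) (hww : w ≤ w') :
    opt f w ≤ opt f w' := by
  obtain ⟨x, hx, _⟩ := exists_opt f hf w' (by linarith)
  rw [← hx]
  refine (opt_le f hf w hw x).trans ?_
  unfold obj
  have := hf x
  nlinarith

lemma opt_lip (f : Sparse n) (hf : ∀ x, 0 ≤ f.val x) (w w' : ℝ) (hw : 0 < w) (hww : w ≤ w') :
    opt f w' ≤ opt f w + (w' - w) * (opt f w / w) := by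
  obtain ⟨x, hx, _⟩ := exists_opt f hf w hw
  have h1 : 6 * f.val x ≤ opt f w / w := by
    rw [le_div_iff₀ hw, ← hx]
    unfold obj
    have := six_nonneg x
    linarith
  calc opt f w' ≤ obj f w' x := opt_le f hf w' (by linarith) x
    _ = obj f w x + (w' - w) * (6 * f.val x) := by unfold obj; ring
    _ ≤ obj f w x + (w' - w) * (opt f w / w) := by
        have : (w' - w) * (6 * f.val x) ≤ (w' - w) * (opt f w / w) :=
          mul_le_mul_of_nonneg_left h1 (by linarith)
        linarith
    _ = _ := by rw [hx]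

lemma opt_nonneg (f : Sparse n) (hf : ∀ x, 0 ≤ f.val x) (w : ℝ) (hw : 0 < w) : 0 ≤ opt f w := by
  obtain ⟨x, hx, _⟩ := exists_opt f hf w hw
  rw [← hx]
  exact obj_nonneg f hf w hw x

lemma opt_continuousOn (f : Sparse n) (hf : ∀ x, 0 ≤ f.val x) (w W : ℝ) (hw : 0 < w) :
    ContinuousOn (opt f) (Set.Icc w W) := by
  have hC : ∀ a ∈ Set.Icc w W, ∀ b ∈ Set.Icc w W, a ≤ b →
      |opt f b - opt f a| ≤ (opt f W / w) * |b - a| := by
    intro a ha b hb hab
    have ha0 : 0 < a := lt_of_lt_of_le hw ha.1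
    have h1 := opt_mono f hf a b ha0 hab
    have h2 := opt_lip f hf a b ha0 hab
    rw [abs_of_nonneg (by linarith), abs_of_nonneg (by linarith)]
    have h3 : opt f a ≤ opt f W := opt_mono f hf a W ha0 ha.2
    have h4 : opt f a / a ≤ opt f W / w :=
      div_le_div₀ ((opt_nonneg f hf a ha0).trans h3) h3 hw ha.1
    nlinarith
  have hlip : LipschitzOnWith (Real.toNNReal (opt f W / w)) (opt f) (Set.Icc w W) := by
    apply LipschitzOnWith.of_dist_le_mul
    intro a ha b hb
    have h0 : 0 ≤ opt f W / w := by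
      have : 0 < W := lt_of_lt_of_le hw (ha.1.trans ha.2)
      exact div_nonneg (opt_nonneg f hf W this) hw.le
    rw [Real.dist_eq, Real.dist_eq, Real.coe_toNNReal _ h0]
    rcases le_total a b with h | h
    · rw [abs_sub_comm, abs_sub_comm a b]
      exact hC a ha b hb h
    · exact hC b hb a ha h
  exact hlip.continuousOn

lemma opt_unbounded (f : Sparse n) (hf : ∀ x, 0 ≤ f.val x) (hno : ∀ x, f.val x ≠ 0) (B w : ℝ)
    (hw : 0 < w) : ∃ W, w ≤ W ∧ B ≤ opt f W := by
  by_contra hcon
  push Not at hcon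
  have hne : ({x : Fin n → ℝ | six x ≤ B}).Nonempty := by
    obtain ⟨x, hx, _⟩ := exists_opt f hf w hw
    refine ⟨x, ?_⟩
    have h1 := hcon w le_rfl
    have h2 : six x ≤ obj f w x := by
      unfold obj
      have : 0 ≤ 6 * w * f.val x := by have := hf x; positivity
      linarith
    show six x ≤ B
    linarith
  obtain ⟨z, _, hz⟩ := (isCompact_six (n := n) B).exists_isMinOn hne (continuous_val f).continuousOn
  have hz0 : 0 < f.val z := lt_of_le_of_ne (hf z) (Ne.symm (hno z))
  set W := max w ((|B| + 1) / f.val z) with hW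
  have hW0 : 0 < W := lt_of_lt_of_le hw (le_max_left _ _)
  obtain ⟨x, hx, _⟩ := exists_opt f hf W hW0
  have h1 := hcon W (le_max_left _ _)
  rw [← hx] at h1
  have h2 : six x ≤ B := by
    unfold obj at h1
    have : 0 ≤ 6 * W * f.val x := by have := hf x; positivity
    linarith
  have h3 : f.val z ≤ f.val x := hz h2
  have h4 : (|B| + 1) / f.val z * f.val z = |B| + 1 := div_mul_cancel₀ _ hz0.ne'
  have h5 : (|B| + 1) / f.val z ≤ W := le_max_right _ _
  have h6 : |B| + 1 ≤ W * f.val x := by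
    rw [← h4]
    exact mul_le_mul h5 h3 hz0.le hW0.le
  unfold obj at h1
  have h7 := six_nonneg x
  have h8 := le_abs_self B
  nlinarith [abs_nonneg B]

theorem gap_bound (f : Sparse n) (hf : ∀ x, 0 ≤ f.val x) (L : ℝ) (hL : f.size ≤ L) (hL1 : 1 ≤ L)
    (h0 : ∃ x, f.val x = 0) : ∃ x, f.val x = 0 ∧ six x ≤ hgt n L + 1 := by
  obtain ⟨y, hy⟩ := h0
  obtain ⟨K, c, hc1, hc2, hc3⟩ := exists_biv f L hL hL1
  have hH0 : 0 ≤ hgt n L := le_trans (Finset.sum_nonneg fun k _ =>
    Finset.sum_nonneg fun i _ => abs_nonneg _) hc1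
  have hle : ∀ w, 0 < w → opt f w ≤ six y := by
    intro w hw
    have := opt_le f hf w hw y
    unfold obj at this
    rw [hy, mul_zero, zero_add] at this
    exact this
  have hlt : ∀ w, 0 < w → opt f w < hgt n L + 1 := by
    intro w hw
    by_contra hcon
    push Not at hcon
    set W := max (max w 1) (hgt n L * six y ^ (5 ^ n) + 1) with hW
    have hWw : w ≤ W := (le_max_left _ _).trans (le_max_left _ _)
    have hW1 : 1 ≤ W := (le_max_right _ _).trans (le_max_left _ _)
    have hW2 : hgt n L * six y ^ (5 ^ n) + 1 ≤ W := le_max_right _ _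
    have hW0 : 0 < W := by linarith
    obtain ⟨x, hx, hcrit⟩ := exists_opt f hf W hW0
    have h1 : hgt n L + 1 ≤ opt f W := hcon.trans (opt_mono f hf w W hw hWw)
    have h2 : opt f W ≤ six y := hle W hW0
    have h3 := hc3 W x hcrit
    rw [hx] at h3
    refine key_nonvanishing (5 ^ n) K c (hgt n L) (opt f W) W hc1 hc2 h1 ?_ hW1 h3
    have h4 : opt f W ^ (5 ^ n) ≤ six y ^ (5 ^ n) :=
      pow_le_pow_left₀ (by linarith) h2 _
    nlinarith
  set C := hgt n L + 1 with hC
  have hne : ({x : Fin n → ℝ | six x ≤ C}).Nonempty := by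
    obtain ⟨x, hx, _⟩ := exists_opt f hf 1 one_pos
    refine ⟨x, ?_⟩
    have h1 := hlt 1 one_pos
    rw [← hx] at h1
    unfold obj at h1
    have := hf x
    show six x ≤ C
    linarith
  obtain ⟨z, hzC, hz⟩ := (isCompact_six (n := n) C).exists_isMinOn hne (continuous_val f).continuousOn
  refine ⟨z, ?_, hzC⟩
  by_contra hne0
  have hz0 : 0 < f.val z := lt_of_le_of_ne (hf z) (Ne.symm hne0)
  set W := (C + 1) / f.val z with hW
  have hW0 : 0 < W := by positivity
  obtain ⟨x, hx, _⟩ := exists_opt f hf W hW0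
  have h1 := hlt W hW0
  rw [← hx] at h1
  unfold obj at h1
  have h2 : six x ≤ C := by
    have : 0 ≤ 6 * W * f.val x := by have := hf x; positivity
    linarith
  have h3 : f.val z ≤ f.val x := hz h2
  have h4 : W * f.val z = C + 1 := div_mul_cancel₀ _ hz0.ne'
  have h5 : W * f.val z ≤ W * f.val x := mul_le_mul_of_nonneg_left h3 hW0.le
  have h6 := six_nonneg x
  nlinarith

theorem gap_sound (f : Sparse n) (hf : ∀ x, 0 ≤ f.val x) (L : ℝ) (hL : f.size ≤ L) (hL1 : 1 ≤ L)
    (B w : ℝ) (hB : hgt n L + 1 ≤ B) (hw : hgt n L * B ^ (5 ^ n) < w) (hw1 : 1 ≤ w)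
    (hx : ∃ x, 6 * w * f.val x + six x < B) : ∃ x, f.val x = 0 := by
  by_contra hno
  push Not at hno
  obtain ⟨K, c, hc1, hc2, hc3⟩ := exists_biv f L hL hL1
  have hw0 : 0 < w := by linarith
  obtain ⟨y, hy⟩ := hx
  have h1 : opt f w < B := (opt_le f hf w hw0 y).trans_lt hy
  obtain ⟨W, hwW, hW⟩ := opt_unbounded f hf hno B w hw0
  obtain ⟨v, hv, hvB⟩ := intermediate_value_Icc hwW (opt_continuousOn f hf w W hw0)
    (show B ∈ Set.Icc (opt f w) (opt f W) from ⟨h1.le, hW⟩)
  obtain ⟨x, hx, hcrit⟩ := exists_opt f hf v (lt_of_lt_of_le hw0 hv.1)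
  have h3 := hc3 v x hcrit
  rw [hx, hvB] at h3
  exact key_nonvanishing (5 ^ n) K c (hgt n L) B v hc1 hc2 hB (lt_of_lt_of_le hw hv.1)
    (hw1.trans hv.1) h3

end Pool.Agent.helper98.Gap
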