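import Mathlib
import Pool.Agent.helper98.Gap.An

set_option autoImplicit false

open Finset

namespace Pool.Agent.helper98.Gap

/-- An elementary arithmetic constraint on real variables `x 0, ..., x (n-1)`:
`x i = 1`, `x i + x j = x k` or `x i * x j = x k`. -/
inductive Con (n : ℕ) : Type where
  | one (i : Fin n) : Con n
  | add (i j k : Fin n) : Con n
  | mul (i j k : Fin n) : Con n

variable {n : ℕ}

/-- the defect of a constraint at a point -/
noncomputable def Con.res : Con n → (Fin n → ℝ) → ℝ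
  | .one i, x => x i - 1
  | .add i j k, x => x i + x j - x k
  | .mul i j k, x => x i * x j - x k

/-- coefficients -/
def Con.coef : Con n → Fin 3 → ℤ
  | .one _, a => ![1, -1, 0] a
  | .add _ _ _, a => ![1, 1, -1] a
  | .mul _ _ _, a => ![1, -1, 0] a

/-- exponent vector of a variable -/
def dl (i : Fin n) : Fin n → ℕ := fun j => if j = i then 1 else 0

/-- exponents -/
def Con.expo : Con n → Fin 3 → Fin n → ℕ
  | .one i, a => ![dl i, 0, 0] a
  | .add i j k, a => ![dl i, dl j, dl k] a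
  | .mul i j k, a => ![dl i + dl j, dl k, 0] a

lemma mon_dl (x : Fin n → ℝ) (i : Fin n) : mon x (dl i) = x i := by
  have := mon_single x i 1
  rw [pow_one] at this
  exact this

lemma mon_zero (x : Fin n → ℝ) : mon x (0 : Fin n → ℕ) = 1 := by simp [mon]

lemma mon_add' (x : Fin n → ℝ) (a b : Fin n → ℕ) : mon x (a + b) = mon x a * mon x b :=
  mon_add x a b

lemma Con.res_eq (c : Con n) (x : Fin n → ℝ) :
    c.res x = ∑ a, (c.coef a : ℝ) * mon x (c.expo a) := by
  cases c with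
  | one i => simp [Con.res, Con.coef, Con.expo, Fin.sum_univ_three, mon_dl, mon_zero]; ring
  | add i j k => simp [Con.res, Con.coef, Con.expo, Fin.sum_univ_three, mon_dl]; ring
  | mul i j k =>
    simp [Con.res, Con.coef, Con.expo, Fin.sum_univ_three, mon_dl, mon_zero, mon_add']; ring

lemma sum_dl (i : Fin n) : ∑ j, dl i j = 1 := sum_eq_of_single i 1

lemma Con.sum_expo (c : Con n) (a : Fin 3) : ∑ j, c.expo a j ≤ 2 := by
  cases c with
  | one i => fin_cases a <;> simp [Con.expo, sum_dl]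
  | add i j k => fin_cases a <;> simp [Con.expo, sum_dl]
  | mul i j k => fin_cases a <;> simp [Con.expo, sum_dl, Finset.sum_add_distrib]

lemma Con.abs_coef (c : Con n) (a : Fin 3) : |(c.coef a : ℝ)| ≤ 1 := by
  cases c with
  | one i => fin_cases a <;> simp [Con.coef]
  | add i j k => fin_cases a <;> simp [Con.coef]
  | mul i j k => fin_cases a <;> simp [Con.coef]

/-- the sum of squares of the defects -/
def sq (S : List (Con n)) : Sparse n where
  T := Fin S.length × Fin 3 × Fin 3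
  fin := inferInstance
  c := fun s => (S.get s.1).coef s.2.1 * (S.get s.1).coef s.2.2
  e := fun s j => (S.get s.1).expo s.2.1 j + (S.get s.1).expo s.2.2 j
  deg := fun s => by
    rw [Finset.sum_add_distrib]
    have h1 := (S.get s.1).sum_expo s.2.1
    have h2 := (S.get s.1).sum_expo s.2.2
    omega

lemma sq_val (S : List (Con n)) (x : Fin n → ℝ) :
    (sq S).val x = ∑ k : Fin S.length, (S.get k).res x ^ 2 := by
  unfold Sparse.val
  show ∑ s : Fin S.length × Fin 3 × Fin 3, _ = _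
  rw [Fintype.sum_prod_type]
  apply Finset.sum_congr rfl
  intro k _
  rw [Fintype.sum_prod_type, Con.res_eq, pow_two, Finset.sum_mul_sum]
  apply Finset.sum_congr rfl
  intro a _
  apply Finset.sum_congr rfl
  intro b _
  have : mon x ((sq S).e (k, a, b)) = mon x ((S.get k).expo a) * mon x ((S.get k).expo b) :=
    mon_add x _ _
  rw [this]
  simp only [sq]
  push_cast
  ring

lemma sq_nonneg (S : List (Con n)) (x : Fin n → ℝ) : 0 ≤ (sq S).val x := by
  rw [sq_val]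
  exact Finset.sum_nonneg fun k _ => by positivity

lemma sq_size (S : List (Con n)) : (sq S).size ≤ 9 * S.length + 1 := by
  unfold Sparse.size
  show ∑ s : Fin S.length × Fin 3 × Fin 3, _ ≤ _
  have h1 : ∀ s : Fin S.length × Fin 3 × Fin 3, |((sq S).c s : ℝ)| ≤ 1 := by
    intro s
    simp only [sq]
    push_cast
    rw [abs_mul]
    exact mul_le_one₀ ((S.get s.1).abs_coef s.2.1) (abs_nonneg _) ((S.get s.1).abs_coef s.2.2)
  calc ∑ s : Fin S.length × Fin 3 × Fin 3, |((sq S).c s : ℝ)|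
      ≤ ∑ _s : Fin S.length × Fin 3 × Fin 3, (1 : ℝ) := Finset.sum_le_sum fun s _ => h1 s
    _ = 9 * S.length := by simp; ring
    _ ≤ _ := by linarith

lemma sq_zero_iff (S : List (Con n)) (x : Fin n → ℝ) :
    (sq S).val x = 0 ↔ ∀ c ∈ S, c.res x = 0 := by
  rw [sq_val, Finset.sum_eq_zero_iff_of_nonneg (fun k _ => by positivity)]
  constructor
  · intro h c hc
    obtain ⟨k, rfl⟩ := List.get_of_mem hc
    have := h k (Finset.mem_univ _)
    exact pow_eq_zero_iff (two_ne_zero) |>.1 this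
  · intro h k _
    rw [h _ (List.get_mem _ _)]
    norm_num

/-! ### numeric bounds -/

lemma hgt_le (n m : ℕ) : hgt n (9 * m + 1) + 1 ≤ (2:ℝ) ^ (2 ^ (5 * (n + m) + 17)) := by
  set s := n + m + 2 with hs
  have hs2 : s ≤ 2 ^ s := Nat.lt_two_pow_self.le
  have h1 : (6 * (9 * (m:ℝ) + 1) + n) ≤ 2 ^ (s + 6) := by
    have : 6 * (9 * m + 1) + n ≤ 64 * s := by omega
    have h2 : 64 * s ≤ 2 ^ (s + 6) := by
      rw [pow_add]; omega
    have h3 : 6 * (9 * m + 1) + n ≤ 2 ^ (s + 6) := this.trans h2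
    exact_mod_cast h3
  have h2 : (4 * (9 * (m:ℝ) + 1)) ≤ 2 ^ (s + 6) := by
    have : 4 * (9 * m + 1) ≤ 64 * s := by omega
    have h2 : 64 * s ≤ 2 ^ (s + 6) := by
      rw [pow_add]; omega
    have h3 : 4 * (9 * m + 1) ≤ 2 ^ (s + 6) := this.trans h2
    exact_mod_cast h3
  have h3 : (6 * (9 * (m:ℝ) + 1) + n) * (4 * (9 * (m:ℝ) + 1)) ^ (4 * n + 6) ≤
      2 ^ ((s + 6) * (4 * n + 7)) := by
    calc _ ≤ (2:ℝ) ^ (s + 6) * ((2:ℝ) ^ (s + 6)) ^ (4 * n + 6) :=
          mul_le_mul h1 (pow_le_pow_left₀ (by positivity) h2 _) (by positivity) (by positivity)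
      _ = 2 ^ ((s + 6) * (4 * n + 7)) := by
          rw [← pow_succ', ← pow_mul]
  have h4 : (s + 6) * (4 * n + 7) + 1 ≤ 2 ^ (2 * s + 6) := by
    have a1 : s + 6 ≤ 4 * 2 ^ s := by omega
    have a2 : 4 * n + 8 ≤ 16 * 2 ^ s := by omega
    calc (s + 6) * (4 * n + 7) + 1 ≤ (s + 6) * (4 * n + 8) := by
          have : 1 ≤ s + 6 := by omega
          nlinarith
      _ ≤ (4 * 2 ^ s) * (16 * 2 ^ s) := Nat.mul_le_mul a1 a2
      _ = 2 ^ (2 * s + 6) := by rw [pow_add, two_mul, pow_add]; ring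
  have h5 : 1 + (6 * (9 * (m:ℝ) + 1) + n) * (4 * (9 * (m:ℝ) + 1)) ^ (4 * n + 6) ≤
      2 ^ (2 ^ (2 * s + 6)) := by
    calc _ ≤ 1 + (2:ℝ) ^ ((s + 6) * (4 * n + 7)) := by linarith
      _ ≤ (2:ℝ) ^ ((s + 6) * (4 * n + 7)) + (2:ℝ) ^ ((s + 6) * (4 * n + 7)) := by
          have : (1:ℝ) ≤ (2:ℝ) ^ ((s + 6) * (4 * n + 7)) := one_le_pow₀ (by norm_num)
          linarith
      _ = (2:ℝ) ^ ((s + 6) * (4 * n + 7) + 1) := by rw [pow_succ]; ring
      _ ≤ _ := pow_le_pow_right₀ (by norm_num) h4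
  have h6 : hgt n (9 * m + 1) ≤ 2 ^ (2 ^ (5 * s + 6)) := by
    unfold hgt
    calc _ ≤ ((2:ℝ) ^ (2 ^ (2 * s + 6))) ^ (5 ^ n) := pow_le_pow_left₀ (by positivity) h5 _
      _ = (2:ℝ) ^ (2 ^ (2 * s + 6) * 5 ^ n) := by rw [pow_mul]
      _ ≤ _ := by
        apply pow_le_pow_right₀ (by norm_num)
        have : 5 ^ n ≤ 2 ^ (3 * s) := by
          calc 5 ^ n ≤ 8 ^ n := Nat.pow_le_pow_left (by norm_num) n
            _ = 2 ^ (3 * n) := by rw [pow_mul]; norm_num
            _ ≤ 2 ^ (3 * s) := Nat.pow_le_pow_right (by norm_num) (by omega)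
        calc 2 ^ (2 * s + 6) * 5 ^ n ≤ 2 ^ (2 * s + 6) * 2 ^ (3 * s) := Nat.mul_le_mul_left _ this
          _ = 2 ^ (5 * s + 6) := by rw [← pow_add]; congr 1; ring
  calc hgt n (9 * m + 1) + 1 ≤ (2:ℝ) ^ (2 ^ (5 * s + 6)) + (2:ℝ) ^ (2 ^ (5 * s + 6)) := by
        have : (1:ℝ) ≤ (2:ℝ) ^ (2 ^ (5 * s + 6)) := one_le_pow₀ (by norm_num)
        linarith
    _ = (2:ℝ) ^ (2 ^ (5 * s + 6) + 1) := by rw [pow_succ]; ring
    _ ≤ (2:ℝ) ^ (2 ^ (5 * (n + m) + 17)) := by
      apply pow_le_pow_right₀ (by norm_num)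
      have e1 : 5 * (n + m) + 17 = (5 * s + 6) + 1 := by omega
      rw [e1, pow_succ 2 (5 * s + 6)]
      have : 1 ≤ 2 ^ (5 * s + 6) := Nat.one_le_two_pow
      omega

lemma abs_lt_of_six (x : Fin n → ℝ) (C : ℝ) (hC : 1 ≤ C) (hx : six x ≤ C) (i : Fin n) :
    |x i| ≤ C := by
  by_contra hcon
  push Not at hcon
  have h1 : 1 < |x i| := lt_of_le_of_lt hC hcon
  have h3 : |x i| ≤ |x i| ^ 6 := le_self_pow₀ h1.le (by norm_num)
  have h4 : |x i| ^ 6 = x i ^ 6 := Even.pow_abs (by decide) _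
  have h5 : x i ^ 6 ≤ six x :=
    Finset.single_le_sum (f := fun i => x i ^ 6) (fun i _ => by positivity) (Finset.mem_univ i)
  linarith

lemma hgt_nonneg (n : ℕ) (L : ℝ) (hL : 0 ≤ L) : 0 ≤ hgt n L := by
  unfold hgt
  apply pow_nonneg
  have : 0 ≤ (6 * L + n) * (4 * L) ^ (4 * n + 6) :=
    mul_nonneg (by positivity) (pow_nonneg (by positivity) _)
  linarith

/-- the radius exponent -/
def rexp (n m : ℕ) : ℕ := 5 * (n + m) + 18

/-- the precision exponent -/
def eexp (n m : ℕ) : ℕ := 8 * (n + m) + 30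

/-- **Gap theorem, first half.** A solvable system of elementary constraints has a solution whose
coordinates are bounded by a doubly exponential quantity. -/
theorem gap_radius (S : List (Con n)) (h : ∃ x : Fin n → ℝ, ∀ c ∈ S, c.res x = 0) :
    ∃ x : Fin n → ℝ, (∀ c ∈ S, c.res x = 0) ∧
      ∀ i, |x i| < (2:ℝ) ^ (2 ^ rexp n S.length) := by
  obtain ⟨y, hy⟩ := h
  obtain ⟨x, hx, hx6⟩ := gap_bound (sq S) (sq_nonneg S) (9 * S.length + 1) (sq_size S)
    (by have : (0:ℝ) ≤ S.length := by positivity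
        linarith) ⟨y, (sq_zero_iff S y).2 hy⟩
  refine ⟨x, (sq_zero_iff S x).1 hx, fun i => ?_⟩
  have h1 := hgt_le n S.length
  have h2 : |x i| ≤ (2:ℝ) ^ (2 ^ (5 * (n + S.length) + 17)) := by
    apply abs_lt_of_six x _ (one_le_pow₀ (by norm_num)) (hx6.trans h1)
  refine h2.trans_lt ?_
  apply pow_lt_pow_right₀ (by norm_num)
  apply Nat.pow_lt_pow_right (by norm_num)
  unfold rexp
  omega

/-- **Gap theorem, second half.** A doubly exponentially precise approximate solution in a doubly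
exponentially large box implies the existence of an exact solution. -/
theorem gap_precision (S : List (Con n)) (h : ∃ x : Fin n → ℝ,
      (∀ i, |x i| < (2:ℝ) ^ (2 ^ rexp n S.length)) ∧
      ∀ c ∈ S, |c.res x| < 1 / (2:ℝ) ^ (2 ^ eexp n S.length)) :
    ∃ x : Fin n → ℝ, ∀ c ∈ S, c.res x = 0 := by
  obtain ⟨x, hx, hc⟩ := h
  set m := S.length with hm
  obtain ⟨N, hN⟩ : ∃ N, N = rexp n m := ⟨_, rfl⟩
  rw [← hN] at hx
  set R : ℝ := (2:ℝ) ^ (2 ^ N) with hR
  have hR1 : 1 ≤ R := one_le_pow₀ (by norm_num)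
  set H := hgt n (9 * m + 1) with hH
  have hm0 : (0:ℝ) ≤ 9 * m + 1 := by positivity
  have hH0 : 0 ≤ H := hgt_nonneg n _ hm0
  have hHR : H + 1 ≤ R := by
    refine (hgt_le n m).trans ?_
    apply pow_le_pow_right₀ (by norm_num)
    apply Nat.pow_le_pow_right (by norm_num)
    rw [hN]; unfold rexp; omega
  set B : ℝ := n * R ^ 6 + R with hB
  have hnR : (0:ℝ) ≤ n * R ^ 6 := by positivity
  have hBH : H + 1 ≤ B := by linarith
  have hB1 : 1 ≤ B := by linarith
  -- B is small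
  have hBle : B ≤ (2:ℝ) ^ (2 ^ (N + 3)) := by
    have h1 : (n:ℝ) + 1 ≤ R := by
      have : n + 1 ≤ 2 ^ (2 ^ N) := by
        have e1 : n + 1 ≤ 2 ^ (n + 1) := Nat.lt_two_pow_self.le
        refine e1.trans (Nat.pow_le_pow_right (by norm_num) ?_)
        refine le_trans ?_ (Nat.lt_two_pow_self (n := N)).le
        rw [hN]; unfold rexp; omega
      rw [hR]; exact_mod_cast this
    have h2 : B ≤ R ^ 7 := by
      have : R ≤ R ^ 6 := le_self_pow₀ hR1 (by norm_num)
      calc B = n * R ^ 6 + R := rfl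
        _ ≤ n * R ^ 6 + R ^ 6 := by linarith
        _ = (n + 1) * R ^ 6 := by ring
        _ ≤ R * R ^ 6 := mul_le_mul_of_nonneg_right h1 (by positivity)
        _ = R ^ 7 := by ring
    refine h2.trans ?_
    rw [hR, ← pow_mul]
    apply pow_le_pow_right₀ (by norm_num)
    rw [pow_add]
    omega
  set w : ℝ := R * B ^ (5 ^ n) + 1 with hw
  have hwB : H * B ^ (5 ^ n) < w := by
    have : H * B ^ (5 ^ n) ≤ R * B ^ (5 ^ n) :=
      mul_le_mul_of_nonneg_right (by linarith) (by positivity)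
    linarith
  have hw1 : 1 ≤ w := by
    have : 0 ≤ R * B ^ (5 ^ n) := by positivity
    linarith
  have hwle : w ≤ (2:ℝ) ^ (2 ^ (N + 3 * n + 5)) := by
    have h5 : 5 ^ n ≤ 2 ^ (3 * n) := by
      calc 5 ^ n ≤ 8 ^ n := Nat.pow_le_pow_left (by norm_num) n
        _ = 2 ^ (3 * n) := by rw [pow_mul]; norm_num
    have h1 : B ^ (5 ^ n) ≤ (2:ℝ) ^ (2 ^ (N + 3 + 3 * n)) := by
      calc B ^ (5 ^ n) ≤ ((2:ℝ) ^ (2 ^ (N + 3))) ^ (5 ^ n) := pow_le_pow_left₀ (by linarith) hBle _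
        _ = (2:ℝ) ^ (2 ^ (N + 3) * 5 ^ n) := by rw [pow_mul]
        _ ≤ _ := by
          apply pow_le_pow_right₀ (by norm_num)
          calc 2 ^ (N + 3) * 5 ^ n ≤ 2 ^ (N + 3) * 2 ^ (3 * n) := Nat.mul_le_mul_left _ h5
            _ = 2 ^ (N + 3 + 3 * n) := by rw [← pow_add]
    have h2 : R * B ^ (5 ^ n) ≤ (2:ℝ) ^ (2 ^ (N + 3 * n + 4)) := by
      calc R * B ^ (5 ^ n) ≤ (2:ℝ) ^ (2 ^ N) * (2:ℝ) ^ (2 ^ (N + 3 + 3 * n)) :=
            mul_le_mul_of_nonneg_left h1 (by positivity)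
        _ = (2:ℝ) ^ (2 ^ N + 2 ^ (N + 3 + 3 * n)) := by rw [← pow_add]
        _ ≤ _ := by
          apply pow_le_pow_right₀ (by norm_num)
          have e1 : 2 ^ N ≤ 2 ^ (N + 3 + 3 * n) := Nat.pow_le_pow_right (by norm_num) (by omega)
          have e2 : 2 ^ (N + 3 * n + 4) = 2 ^ (N + 3 + 3 * n) * 2 := by rw [← pow_succ]; congr 1; ring
          omega
    calc w = R * B ^ (5 ^ n) + 1 := rfl
      _ ≤ (2:ℝ) ^ (2 ^ (N + 3 * n + 4)) + (2:ℝ) ^ (2 ^ (N + 3 * n + 4)) := by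
          have : (1:ℝ) ≤ (2:ℝ) ^ (2 ^ (N + 3 * n + 4)) := one_le_pow₀ (by norm_num)
          linarith
      _ = (2:ℝ) ^ (2 ^ (N + 3 * n + 4) + 1) := by rw [pow_succ (2:ℝ) (2 ^ (N + 3 * n + 4))]; ring
      _ ≤ _ := by
        apply pow_le_pow_right₀ (by norm_num)
        have e2 : 2 ^ (N + 3 * n + 5) = 2 ^ (N + 3 * n + 4) * 2 := by rw [← pow_succ]
        have e3 : 1 ≤ 2 ^ (N + 3 * n + 4) := Nat.one_le_two_pow
        omega
  -- the objective value at x is small
  set E : ℝ := 1 / (2:ℝ) ^ (2 ^ eexp n m) with hE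
  have hE0 : 0 < E := by positivity
  have hval : (sq S).val x ≤ m * E ^ 2 := by
    rw [sq_val]
    calc ∑ k : Fin S.length, (S.get k).res x ^ 2 ≤ ∑ _k : Fin S.length, E ^ 2 := by
          apply Finset.sum_le_sum
          intro k _
          have := hc _ (List.get_mem S k)
          rw [← sq_abs]
          exact pow_le_pow_left₀ (abs_nonneg _) this.le 2
      _ = m * E ^ 2 := by simp [hm]
  have hsix : six x ≤ n * R ^ 6 := by
    unfold six
    calc ∑ i, x i ^ 6 ≤ ∑ _i : Fin n, R ^ 6 := by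
          apply Finset.sum_le_sum
          intro i _
          have h4 : |x i| ^ 6 = x i ^ 6 := Even.pow_abs (by decide) _
          rw [← h4]
          exact pow_le_pow_left₀ (abs_nonneg _) (hx i).le 6
      _ = n * R ^ 6 := by simp
  have hsmall : 6 * w * (m * E ^ 2) < 1 := by
    have h1 : (6 * (m:ℝ)) ≤ (2:ℝ) ^ (2 ^ (N + 3 * n + 5)) := by
      have : 6 * m ≤ 2 ^ (2 ^ (N + 3 * n + 5)) := by
        have e0 : 6 * m ≤ 2 ^ (6 * m) := Nat.lt_two_pow_self.le
        refine e0.trans (Nat.pow_le_pow_right (by norm_num) ?_)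
        have e1 : 6 * m ≤ N + 3 * n + 5 + m := by rw [hN]; unfold rexp; omega
        have e2 : m + 1 ≤ 2 ^ m := Nat.lt_two_pow_self
        have e3 : N + 3 * n + 5 + m ≤ 2 ^ (N + 3 * n + 5) := by
          have e4 : 2 * m ≤ N + 3 * n + 5 := by rw [hN]; unfold rexp; omega
          have e5 : 4 ≤ N + 3 * n + 5 := by omega
          generalize N + 3 * n + 5 = k at e4 e5
          have e6 : k + 1 ≤ 2 ^ k := Nat.lt_two_pow_self
          have e7 : 2 * k ≤ 2 ^ k := by
            clear e4 e6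
            induction k, e5 using Nat.le_induction with
            | base => norm_num
            | succ k hk ih => rw [pow_succ]; omega
          omega
        omega
      exact_mod_cast this
    have h2 : 6 * w * m ≤ (2:ℝ) ^ (2 ^ (N + 3 * n + 6)) := by
      calc 6 * w * m = w * (6 * m) := by ring
        _ ≤ (2:ℝ) ^ (2 ^ (N + 3 * n + 5)) * (2:ℝ) ^ (2 ^ (N + 3 * n + 5)) :=
            mul_le_mul hwle h1 (by positivity) (by positivity)
        _ = (2:ℝ) ^ (2 ^ (N + 3 * n + 6)) := by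
            rw [← pow_add]; congr 1; rw [← two_mul, ← pow_succ']
    have h3 : N + 3 * n + 6 ≤ eexp n m := by rw [hN]; unfold rexp eexp; omega
    have h4 : (2:ℝ) ^ (2 ^ (N + 3 * n + 6)) ≤ (2:ℝ) ^ (2 ^ eexp n m) :=
      pow_le_pow_right₀ (by norm_num) (Nat.pow_le_pow_right (by norm_num) h3)
    have h5 : (2:ℝ) ^ (2 ^ eexp n m) * E = 1 := by
      rw [hE]; field_simp
    have h6 : E < 1 := by
      rw [hE, div_lt_one (by positivity)]
      exact one_lt_pow₀ (by norm_num) (by positivity)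
    calc 6 * w * (m * E ^ 2) = (6 * w * m) * E * E := by ring
      _ ≤ (2:ℝ) ^ (2 ^ eexp n m) * E * E := by
          apply mul_le_mul_of_nonneg_right _ hE0.le
          exact mul_le_mul_of_nonneg_right (h2.trans h4) hE0.le
      _ = E := by rw [h5, one_mul]
      _ < 1 := h6
  obtain ⟨y, hy⟩ := gap_sound (sq S) (sq_nonneg S) (9 * m + 1) (sq_size S)
    (by have : (0:ℝ) ≤ m := by positivity
        linarith) B w hBH hwB hw1 ⟨x, by
      have h1 : 6 * w * (sq S).val x ≤ 6 * w * (m * E ^ 2) :=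
        mul_le_mul_of_nonneg_left hval (by positivity)
      linarith⟩
  exact ⟨y, (sq_zero_iff S y).1 hy⟩

end Pool.Agent.helper98.Gap
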