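import Mathlib
import Pool.Agent.helper98.Gap.Arith
import Pool.Agent.helper56.SGE.Arith

/-! # Quadratic systems and strict inequalities (module M1) -/

set_option autoImplicit false

open Finset

namespace Pool.Agent.helper98.Gap

open Pool.Agent.helper56.SGE Pool.Agent.helper56.SGE.QSys

section sys

variable (Q : QSys) (N : ℕ) (hN : Q.nv + 2 + Q.m ≤ N)

/-- index of a reference -/
def cref (r : ℕ) : Fin N :=
  ⟨if r = 0 then Q.nv else if r = 1 then Q.nv + 1 else if r - 2 < Q.nv then r - 2 else Q.nv, by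
    split_ifs <;> omega⟩

/-- index of a product -/
def pref (k : ℕ) : Fin N := ⟨if k < Q.m then Q.nv + 2 + k else Q.nv, by split_ifs <;> omega⟩

/-- the elementary constraints of a quadratic system -/
def sysL : List (Con N) :=
  [Con.one (cref Q N hN 1), Con.add (cref Q N hN 0) (cref Q N hN 0) (cref Q N hN 0)] ++
    (List.range Q.m).flatMap (fun k =>
      [Con.mul (cref Q N hN (Q.ref k 0)) (cref Q N hN (Q.ref k 1)) (pref Q N hN k),
       Con.add (pref Q N hN k) (cref Q N hN (Q.ref k 2)) (cref Q N hN (Q.ref k 3))])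

lemma sysL_length : (sysL Q N hN).length = 2 * Q.m + 2 := by
  unfold sysL
  rw [List.length_append, List.length_flatMap]
  simp
  ring

lemma mem_sysL (c : Con N) : c ∈ sysL Q N hN ↔ c = Con.one (cref Q N hN 1) ∨
    c = Con.add (cref Q N hN 0) (cref Q N hN 0) (cref Q N hN 0) ∨ ∃ k < Q.m,
      c = Con.mul (cref Q N hN (Q.ref k 0)) (cref Q N hN (Q.ref k 1)) (pref Q N hN k) ∨
      c = Con.add (pref Q N hN k) (cref Q N hN (Q.ref k 2)) (cref Q N hN (Q.ref k 3)) := by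
  unfold sysL
  simp [List.mem_flatMap]

lemma rval_two (z : ℕ → ℝ) (r : ℕ) (h0 : r ≠ 0) (h1 : r ≠ 1) : rval z r = z (r - 2) := by
  obtain ⟨v, rfl⟩ : ∃ v, r = v + 2 := ⟨r - 2, by omega⟩
  simp [rval]

/-- the point belonging to a valuation -/
noncomputable def pnt (z : ℕ → ℝ) : Fin N → ℝ := fun i =>
  if (i : ℕ) < Q.nv then z i else if (i : ℕ) = Q.nv then 0 else if (i : ℕ) = Q.nv + 1 then 1 else
    if (i : ℕ) - (Q.nv + 2) < Q.m then
      rval z (Q.ref (i - (Q.nv + 2)) 0) * rval z (Q.ref (i - (Q.nv + 2)) 1) else 0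

lemma pnt_cref (z : ℕ → ℝ) (r : ℕ) (hr : r < Q.nv + 2) : pnt Q N z (cref Q N hN r) = rval z r := by
  unfold pnt cref
  by_cases h0 : r = 0
  · simp [h0, rval]
  · by_cases h1 : r = 1
    · simp [h1, rval]
    · have h2 : r - 2 < Q.nv := by omega
      rw [rval_two z r h0 h1]
      simp [h0, h1, h2]

lemma pnt_pref (z : ℕ → ℝ) (k : ℕ) (hk : k < Q.m) :
    pnt Q N z (pref Q N hN k) = rval z (Q.ref k 0) * rval z (Q.ref k 1) := by
  unfold pnt pref
  have h1 : ¬ (Q.nv + 2 + k < Q.nv) := by omega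
  have h2 : ¬ (Q.nv + 2 + k = Q.nv) := by omega
  have h3 : ¬ (Q.nv + 2 + k = Q.nv + 1) := by omega
  have h4 : Q.nv + 2 + k - (Q.nv + 2) = k := by omega
  simp only [hk, if_true, h1, if_false, h2, h3, h4]

lemma exact_of_sat (hQ : Q.WF) (z : ℕ → ℝ) :
    (∀ k < Q.m, Q.E z k = 0) → ∀ c ∈ sysL Q N hN, c.res (pnt Q N z) = 0 := by
  intro h c hc
  rcases (mem_sysL Q N hN c).1 hc with rfl | rfl | ⟨k, hk, rfl | rfl⟩
  · simp only [Con.res]
    rw [pnt_cref Q N hN z 1 (by omega)]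
    simp [rval]
  · simp only [Con.res]
    rw [pnt_cref Q N hN z 0 (by omega)]
    simp [rval]
  · simp only [Con.res]
    rw [pnt_cref Q N hN z _ (hQ k hk 0 (by norm_num)), pnt_cref Q N hN z _ (hQ k hk 1 (by norm_num)),
      pnt_pref Q N hN z k hk]
    ring
  · simp only [Con.res]
    rw [pnt_cref Q N hN z _ (hQ k hk 2 (by norm_num)), pnt_cref Q N hN z _ (hQ k hk 3 (by norm_num)),
      pnt_pref Q N hN z k hk]
    exact h k hk

lemma sat_of_exact (hQ : Q.WF) (y : Fin N → ℝ) (h : ∀ c ∈ sysL Q N hN, c.res y = 0) :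
    ∀ k < Q.m, Q.E (fun v => if hv : v < N then y ⟨v, hv⟩ else 0) k = 0 := by
  have h0 : y (cref Q N hN 0) = 0 := by
    have := h _ ((mem_sysL Q N hN _).2 (Or.inr (Or.inl rfl)))
    simp only [Con.res] at this
    linarith
  have h1 : y (cref Q N hN 1) = 1 := by
    have := h _ ((mem_sysL Q N hN _).2 (Or.inl rfl))
    simp only [Con.res] at this
    linarith
  have hr : ∀ r < Q.nv + 2, rval (fun v => if hv : v < N then y ⟨v, hv⟩ else 0) r =
      y (cref Q N hN r) := by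
    intro r hr
    by_cases e0 : r = 0
    · rw [e0, h0]; rfl
    · by_cases e1 : r = 1
      · rw [e1, h1]; rfl
      · rw [rval_two _ r e0 e1]
        have h2 : r - 2 < Q.nv := by omega
        have h3 : r - 2 < N := by omega
        simp only [h3, dif_pos]
        congr 1
        unfold cref
        simp [e0, e1, h2]
  intro k hk
  have e1 := h _ ((mem_sysL Q N hN _).2 (Or.inr (Or.inr ⟨k, hk, Or.inl rfl⟩)))
  have e2 := h _ ((mem_sysL Q N hN _).2 (Or.inr (Or.inr ⟨k, hk, Or.inr rfl⟩)))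
  simp only [Con.res] at e1 e2
  unfold QSys.E
  rw [hr _ (hQ k hk 0 (by norm_num)), hr _ (hQ k hk 1 (by norm_num)),
    hr _ (hQ k hk 2 (by norm_num)), hr _ (hQ k hk 3 (by norm_num))]
  linarith

end sys

lemma two_pow_two_pow_mono {a b : ℕ} (h : a ≤ b) : (2:ℝ) ^ (2 ^ a) ≤ (2:ℝ) ^ (2 ^ b) :=
  pow_le_pow_right₀ (by norm_num) (Nat.pow_le_pow_right (by norm_num) h)

lemma two_pow_two_pow_sq (a : ℕ) : (2:ℝ) ^ (2 ^ a) * (2:ℝ) ^ (2 ^ a) = (2:ℝ) ^ (2 ^ (a + 1)) := by
  rw [← pow_add, ← two_mul, ← pow_succ']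

theorem sat'_of_sat (Q : QSys) (hQ : Q.WF) (h : Q.Sat) : Q.Sat' := by
  obtain ⟨z0, hz0⟩ := h
  set N := Q.nv + 2 + Q.m with hN
  obtain ⟨y, hy, hyR⟩ := gap_radius (sysL Q N le_rfl) ⟨_, exact_of_sat Q N le_rfl hQ z0 hz0⟩
  rw [sysL_length] at hyR
  obtain ⟨a, ha⟩ : ∃ a, a = rexp N (2 * Q.m + 2) := ⟨_, rfl⟩
  rw [← ha] at hyR
  obtain ⟨R, hR⟩ : ∃ R, R = (2:ℝ) ^ (2 ^ a) := ⟨_, rfl⟩
  rw [← hR] at hyR
  have hR2 : 2 ≤ R := by
    rw [hR]
    calc (2:ℝ) = 2 ^ (2 ^ 0) := by norm_num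
      _ ≤ _ := two_pow_two_pow_mono (Nat.zero_le _)
  set z : ℕ → ℝ := fun v => if hv : v < N then y ⟨v, hv⟩ else 0 with hz
  have hzR : ∀ v, |z v| < R := by
    intro v
    simp only [hz]
    split_ifs with hv
    · exact hyR _
    · rw [abs_zero]; linarith
  have hE := sat_of_exact Q N le_rfl hQ y hy
  refine ⟨fun i => if i % 2 = 0 then z (i / 2) + R + 2 else R + 2, ?_, ?_⟩
  · intro i _
    have := abs_lt.1 (hzR (i / 2))
    show 1 < (if i % 2 = 0 then z (i / 2) + R + 2 else R + 2)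
    split_ifs
    · linarith [this.1]
    · linarith
  · have e1 : (fun v : ℕ => (if (2 * v) % 2 = 0 then z (2 * v / 2) + R + 2 else R + 2) -
        (if (2 * v + 1) % 2 = 0 then z ((2 * v + 1) / 2) + R + 2 else R + 2)) = z := by
      funext v
      have a1 : (2 * v) % 2 = 0 := by omega
      have a2 : (2 * v + 1) % 2 ≠ 0 := by omega
      have a3 : 2 * v / 2 = v := by omega
      simp only [a1, a2, a3, if_true, if_false]
      ring
    have e2 : ∑ k ∈ Finset.range Q.m, Q.E (fun v : ℕ =>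
        (if (2 * v) % 2 = 0 then z (2 * v / 2) + R + 2 else R + 2) -
        (if (2 * v + 1) % 2 = 0 then z ((2 * v + 1) / 2) + R + 2 else R + 2)) k ^ 2 = 0 := by
      apply Finset.sum_eq_zero
      intro k hk
      rw [e1, hE k (Finset.mem_range.1 hk)]
      norm_num
    have e3 : ∑ i ∈ Finset.range (2 * Q.nv),
        (if i % 2 = 0 then z (i / 2) + R + 2 else R + 2) ≤ ∑ _i ∈ Finset.range (2 * Q.nv), 4 * R := by
      apply Finset.sum_le_sum
      intro i _
      have := abs_lt.1 (hzR (i / 2))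
      split_ifs
      · linarith [this.2]
      · linarith
    rw [Finset.sum_const, Finset.card_range, nsmul_eq_mul] at e3
    push_cast at e3
    have e4 : (1:ℝ) + 2 * Q.nv * (4 * R) < (2:ℝ) ^ (2 ^ Q.tau) := by
      rcases Nat.eq_zero_or_pos Q.nv with hnv | hnv
      · rw [hnv]
        have h2 : (1:ℝ) < (2:ℝ) ^ (2 ^ Q.tau) :=
          one_lt_pow₀ (by norm_num) (pow_ne_zero _ (by norm_num))
        simpa using h2
      have h1 : (8 * (Q.nv:ℝ) + 1) ≤ (2:ℝ) ^ (2 ^ (Q.nv + 3)) := by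
        have b1 : 8 * Q.nv + 1 ≤ 2 ^ (Q.nv + 3) := by
          have : Q.nv + 1 ≤ 2 ^ Q.nv := Nat.lt_two_pow_self
          rw [pow_add]
          omega
        have b2 : 8 * Q.nv + 1 ≤ 2 ^ (2 ^ (Q.nv + 3)) :=
          b1.trans (Nat.pow_le_pow_right (by norm_num) (Nat.lt_two_pow_self).le)
        exact_mod_cast b2
      have h2 : (1:ℝ) + 2 * Q.nv * (4 * R) ≤ (8 * Q.nv + 1) * R := by
        have : (1:ℝ) ≤ R := by linarith
        nlinarith
      have h3 : (8 * (Q.nv:ℝ) + 1) * R ≤ (2:ℝ) ^ (2 ^ (Q.nv + 3)) * (2:ℝ) ^ (2 ^ a) := by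
        rw [hR]
        exact mul_le_mul_of_nonneg_right h1 (by positivity)
      have hat : a + Q.nv + 5 ≤ Q.tau := by
        rw [ha, hN]
        unfold rexp QSys.tau
        omega
      have h4 : (2:ℝ) ^ (2 ^ (Q.nv + 3)) * (2:ℝ) ^ (2 ^ a) ≤ (2:ℝ) ^ (2 ^ (a + Q.nv + 4)) := by
        calc (2:ℝ) ^ (2 ^ (Q.nv + 3)) * (2:ℝ) ^ (2 ^ a)
            ≤ (2:ℝ) ^ (2 ^ (a + Q.nv + 3)) * (2:ℝ) ^ (2 ^ (a + Q.nv + 3)) :=
              mul_le_mul (two_pow_two_pow_mono (by omega)) (two_pow_two_pow_mono (by omega))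
                (by positivity) (by positivity)
          _ = (2:ℝ) ^ (2 ^ (a + Q.nv + 4)) := two_pow_two_pow_sq _
      have h5 : (2:ℝ) ^ (2 ^ (a + Q.nv + 4)) < (2:ℝ) ^ (2 ^ Q.tau) := by
        apply pow_lt_pow_right₀ (by norm_num)
        exact Nat.pow_lt_pow_right (by norm_num) (by omega)
      linarith
    calc _ = (1:ℝ) + ∑ i ∈ Finset.range (2 * Q.nv),
        (if i % 2 = 0 then z (i / 2) + R + 2 else R + 2) := by
          rw [e2, mul_zero, zero_add]
      _ ≤ (1:ℝ) + 2 * Q.nv * (4 * R) := by linarith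
      _ < _ := e4

theorem sat_of_sat' (Q : QSys) (hQ : Q.WF) (h : Q.Sat') : Q.Sat := by
  obtain ⟨X, hX1, hX2⟩ := h
  set z : ℕ → ℝ := fun v => X (2 * v) - X (2 * v + 1) with hz
  obtain ⟨ta, hta⟩ : ∃ t, t = Q.tau := ⟨_, rfl⟩
  obtain ⟨ka, hka⟩ : ∃ t, t = Q.kap := ⟨_, rfl⟩
  rw [← hta, ← hka] at hX2
  obtain ⟨T, hT⟩ : ∃ T, T = (2:ℝ) ^ (2 ^ ta) := ⟨_, rfl⟩
  obtain ⟨K, hK⟩ : ∃ K, K = (2:ℝ) ^ (2 ^ ka) := ⟨_, rfl⟩
  rw [← hT, ← hK] at hX2
  have hT0 : 0 < T := by rw [hT]; positivity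
  have hT1 : 1 ≤ T := by rw [hT]; exact one_le_pow₀ (by norm_num)
  have hK0 : 0 < K := by rw [hK]; positivity
  have hS0 : 0 ≤ ∑ k ∈ Finset.range Q.m, Q.E z k ^ 2 := Finset.sum_nonneg fun k _ => by positivity
  have hX0 : 0 ≤ ∑ i ∈ Finset.range (2 * Q.nv), X i :=
    Finset.sum_nonneg fun i hi => by
      have := hX1 i (Finset.mem_range.1 hi)
      linarith
  have hXT : ∀ i < 2 * Q.nv, X i < T := by
    intro i hi
    have h1 : X i ≤ ∑ i ∈ Finset.range (2 * Q.nv), X i :=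
      Finset.single_le_sum (f := X) (fun j hj => by
        have := hX1 j (Finset.mem_range.1 hj)
        linarith) (Finset.mem_range.2 hi)
    have h2 : 0 ≤ K * ∑ k ∈ Finset.range Q.m, Q.E z k ^ 2 := by positivity
    linarith
  have hzT : ∀ v < Q.nv, |z v| < T := by
    intro v hv
    have a1 := hXT (2 * v) (by omega)
    have a2 := hXT (2 * v + 1) (by omega)
    have a3 := hX1 (2 * v) (by omega)
    have a4 := hX1 (2 * v + 1) (by omega)
    simp only [hz]
    rw [abs_lt]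
    constructor <;> linarith
  have hrT : ∀ r < Q.nv + 2, |rval z r| ≤ T := by
    intro r hr
    by_cases e0 : r = 0
    · rw [e0]; simp only [rval, abs_zero]; exact hT0.le
    · by_cases e1 : r = 1
      · rw [e1]; simp only [rval, abs_one]; exact hT1
      · rw [rval_two z r e0 e1]
        exact (hzT (r - 2) (by omega)).le
  have hEK : ∀ k < Q.m, K * Q.E z k ^ 2 < T := by
    intro k hk
    have h1 : Q.E z k ^ 2 ≤ ∑ k ∈ Finset.range Q.m, Q.E z k ^ 2 :=
      Finset.single_le_sum (f := fun k => Q.E z k ^ 2) (fun j _ => by positivity)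
        (Finset.mem_range.2 hk)
    have h2 : K * Q.E z k ^ 2 ≤ K * ∑ k ∈ Finset.range Q.m, Q.E z k ^ 2 :=
      mul_le_mul_of_nonneg_left h1 hK0.le
    linarith
  -- the padded system
  obtain ⟨N, hN⟩ : ∃ N, N = 4 * (Q.nv + Q.m + 2) := ⟨_, rfl⟩
  have hNle : Q.nv + 2 + Q.m ≤ N := by omega
  obtain ⟨y, hy⟩ := gap_precision (sysL Q N hNle) ⟨pnt Q N z, by
    rw [sysL_length]
    constructor
    · intro i
      have hb : |pnt Q N z i| ≤ T * T := by
        unfold pnt
        split_ifs with c1 c2 c3 c4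
        · exact (hzT _ c1).le.trans (le_mul_of_one_le_left hT0.le hT1)
        · rw [abs_zero]; positivity
        · rw [abs_one]; nlinarith
        · rw [abs_mul]
          exact mul_le_mul (hrT _ (hQ _ c4 0 (by norm_num))) (hrT _ (hQ _ c4 1 (by norm_num)))
            (abs_nonneg _) hT0.le
        · rw [abs_zero]; positivity
      refine hb.trans_lt ?_
      rw [hT, two_pow_two_pow_sq]
      apply pow_lt_pow_right₀ (by norm_num)
      apply Nat.pow_lt_pow_right (by norm_num)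
      rw [hN, hta]
      unfold rexp QSys.tau
      omega
    · intro c hc
      have hη : (0:ℝ) < 1 / (2:ℝ) ^ (2 ^ eexp N (2 * Q.m + 2)) := by positivity
      have exact0 : ∀ a : ℝ, a = 0 → |a| < 1 / (2:ℝ) ^ (2 ^ eexp N (2 * Q.m + 2)) := by
        intro a ha
        rw [ha, abs_zero]; exact hη
      rcases (mem_sysL Q N hNle c).1 hc with rfl | rfl | ⟨k, hk, rfl | rfl⟩
      · apply exact0
        simp only [Con.res]
        rw [pnt_cref Q N hNle z 1 (by omega)]
        simp [rval]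
      · apply exact0
        simp only [Con.res]
        rw [pnt_cref Q N hNle z 0 (by omega)]
        simp [rval]
      · apply exact0
        simp only [Con.res]
        rw [pnt_cref Q N hNle z _ (hQ k hk 0 (by norm_num)),
          pnt_cref Q N hNle z _ (hQ k hk 1 (by norm_num)), pnt_pref Q N hNle z k hk]
        ring
      · simp only [Con.res]
        rw [pnt_cref Q N hNle z _ (hQ k hk 2 (by norm_num)),
          pnt_cref Q N hNle z _ (hQ k hk 3 (by norm_num)), pnt_pref Q N hNle z k hk]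
        have e1 : rval z (Q.ref k 0) * rval z (Q.ref k 1) + rval z (Q.ref k 2) -
            rval z (Q.ref k 3) = Q.E z k := rfl
        rw [e1]
        obtain ⟨e, he⟩ : ∃ e, e = eexp N (2 * Q.m + 2) := ⟨_, rfl⟩
        rw [← he]
        by_contra hcon
        push Not at hcon
        have h1 := hEK k hk
        have h2 : (1 / (2:ℝ) ^ (2 ^ e)) * (1 / (2:ℝ) ^ (2 ^ e)) ≤ Q.E z k ^ 2 := by
          rw [← sq_abs, pow_two]
          exact mul_le_mul hcon hcon (by positivity) (abs_nonneg _)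
        have h3 : K * ((1 / (2:ℝ) ^ (2 ^ e)) * (1 / (2:ℝ) ^ (2 ^ e))) < T :=
          lt_of_le_of_lt (mul_le_mul_of_nonneg_left h2 hK0.le) h1
        have h4 : (1 / (2:ℝ) ^ (2 ^ e)) * (1 / (2:ℝ) ^ (2 ^ e)) = 1 / (2:ℝ) ^ (2 ^ (e + 1)) := by
          rw [← two_pow_two_pow_sq]; field_simp
        rw [h4, mul_one_div, div_lt_iff₀ (by positivity), hT, hK, ← pow_add] at h3
        have h5 : 2 ^ ka < 2 ^ ta + 2 ^ (e + 1) :=
          (pow_lt_pow_iff_right₀ (by norm_num : (1:ℝ) < 2)).1 h3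
        have h6 : ta + 1 ≤ ka := by rw [hta, hka]; unfold QSys.tau QSys.kap; omega
        have h7 : e + 2 ≤ ka := by
          rw [he, hN, hka]; unfold eexp QSys.kap; omega
        have h8 : 2 * 2 ^ ta ≤ 2 ^ ka := by
          rw [← pow_succ']; exact Nat.pow_le_pow_right (by norm_num) h6
        have h9 : 2 * 2 ^ (e + 1) ≤ 2 ^ ka := by
          rw [← pow_succ']; exact Nat.pow_le_pow_right (by norm_num) h7
        omega⟩
  exact ⟨_, sat_of_exact Q N hNle hQ y hy⟩

/-- module M1 -/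
theorem M1 (Q : QSys) (h : Q.WF) : Q.Sat ↔ Q.Sat' := ⟨sat'_of_sat Q h, sat_of_sat' Q h⟩

end Pool.Agent.helper98.Gap
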